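import Pool.Agent.Q188.NC.Kls
import Pool.Agent.Q188.SB.Tr
import Pool.Agent.W695.KH.Final

/-!
# From the functional KLS inequality to hyperplane cuts
-/

set_option autoImplicit false

namespace Pool.Agent.Q188.NC

open MeasureTheory Set Filter Topology
open scoped ENNReal InnerProductSpace Pointwise
open Pool.Agent.W695.KH

theorem kls_hyp : ∃ C : ℝ, 0 < C ∧ ∀ (κ : Type) [Fintype κ] [Nonempty κ]
    (Ω : Set (EuclideanSpace ℝ κ)), IsOpen Ω → Convex ℝ Ω → Bornology.IsBounded Ω →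
    (0 : EuclideanSpace ℝ κ) ∈ Ω → (∀ x ∈ Ω, -x ∈ Ω) → ∀ K : ℝ, 0 < K → KLS K Ω →
    ∃ a : EuclideanSpace ℝ κ, a ≠ 0 ∧ ∀ E : Set (EuclideanSpace ℝ κ), MeasurableSet E → E ⊆ Ω →
      volume E = volume Ω / 2 → sec Ω a ≤ ENNReal.ofReal (C * Real.sqrt K) * per E Ω := by
  obtain ⟨Cs, hCs, hsc⟩ := sec_bound
  refine ⟨360 * Real.sqrt Cs, by positivity, ?_⟩
  intro κ _ _ Ω ho hconv hbd h0 hsym K hK hKLS
  obtain ⟨a, ha, hmax⟩ := Pool.Agent.W932.KH.q_max (Ω := Ω) ho hbd
  set s := EV Ω (fun x => ⟪a, x⟫_ℝ ^ 2) with hsdef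
  have hspos : 0 < s := Pool.Agent.W932.KH.q_pos ho hbd h0 a ha
  have hfin : volume Ω < ⊤ := hbd.measure_lt_top
  have hvol : 0 < (volume Ω).toReal :=
    ENNReal.toReal_pos (ho.measure_pos volume ⟨0, h0⟩).ne' hfin.ne
  have hKs : 0 < K * s := by positivity
  refine ⟨a, ?_, ?_⟩
  · rintro rfl
    rw [norm_zero] at ha
    exact zero_ne_one ha
  intro E hE hEΩ hEvol
  by_cases hp : per E Ω = ⊤
  · rw [hp, ENNReal.mul_top]
    · exact le_top
    · rw [Ne, ENNReal.ofReal_eq_zero, not_le]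
      positivity
  set P := (per E Ω).toReal with hPdef
  have hP : PerLe Ω E P := perLe_toReal E Ω hp
  have hP0 : 0 ≤ P := ENNReal.toReal_nonneg
  have key : (volume Ω).toReal ≤ 3 * (120 * Real.sqrt (K * s)) * P := by
    refine perim κ Ω ho hconv hbd h0 E hE hEΩ hEvol P hP (120 * Real.sqrt (K * s))
      (by positivity) ?_
    intro r hr0 hr1 f L M hf hf12 hV
    have hDc : IsCompact (r • closure Ω) :=
      (Metric.isCompact_of_isClosed_isBounded isClosed_closure hbd.closure).smul r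
    have hDconv : Convex ℝ (r • closure Ω) := hconv.closure.smul r
    have hDvol : 0 < volume (r • closure Ω) := by
      rw [Measure.addHaar_smul]
      refine ENNReal.mul_pos ?_ ?_
      · rw [abs_of_pos (pow_pos hr0 _)]
        exact (ENNReal.ofReal_pos.mpr (pow_pos hr0 _)).ne'
      · exact (lt_of_lt_of_le (ho.measure_pos volume ⟨0, h0⟩) (measure_mono subset_closure)).ne'
    have hlip : ∀ g : Eu κ → ℝ, ContDiff ℝ 1 g → (∀ x, ‖fderiv ℝ g x‖ ≤ 1) →
        VV (r • closure Ω) g ≤ K * s := by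
      intro g hg hg1
      have h1 : VV (r • closure Ω) g = VV Ω fun x => g (r • x) := by
        unfold VV
        rw [Pool.Agent.W932.KH.EV_scale ho hconv r hr0, Pool.Agent.W932.KH.EV_scale ho hconv r hr0]
      rw [h1]
      refine hKLS s hmax _ (hg.comp (contDiff_id.const_smul r)) fun x => ?_
      have h2 : HasFDerivAt (fun x : Eu κ => g (r • x))
          ((fderiv ℝ g (r • x)).comp (r • ContinuousLinearMap.id ℝ (Eu κ))) x :=
        ((hg.differentiable (by norm_num)).differentiableAt.hasFDerivAt).comp x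
          ((hasFDerivAt_id x).const_smul r)
      rw [h2.fderiv]
      refine (ContinuousLinearMap.opNorm_comp_le _ _).trans ?_
      have h3 : ‖r • ContinuousLinearMap.id ℝ (Eu κ)‖ ≤ 1 := by
        rw [norm_smul, Real.norm_eq_abs, abs_of_pos hr0]
        have h4 := ContinuousLinearMap.norm_id_le (𝕜 := ℝ) (E := Eu κ)
        have h5 := norm_nonneg (ContinuousLinearMap.id ℝ (Eu κ))
        nlinarith
      have h6 := hg1 (r • x)
      have h7 := norm_nonneg (fderiv ℝ g (r • x))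
      have h8 := norm_nonneg (r • ContinuousLinearMap.id ℝ (Eu κ))
      nlinarith
    have hw := Pool.Agent.Q188.SB.wpo (r • closure Ω) hDc hDvol (K * s) hKs (fun u hu hb =>
      Pool.Agent.Q188.SB.nash (r • closure Ω) hDc hDconv hDvol (K * s) hKs hlip u hu hb)
    have h2 := body κ (r • closure Ω) hDc hDconv hDvol (1 / 20) (1 / (3600 * (K * s))) (by norm_num)
      (by positivity) hw f L M hf hf12 (by linarith)
    refine h2.trans (le_of_eq ?_)
    rw [mul_pow, mul_pow, Real.sq_sqrt hKs.le]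
    field_simp
    ring
  obtain ⟨hsec1, hsec2, -⟩ := hsc κ Ω ho hconv hbd h0 hsym a ha
  have hsq : (volume Ω).toReal ^ 2 ≤ 360 ^ 2 * (K * s) * P ^ 2 := by
    refine (pow_le_pow_left₀ hvol.le key 2).trans (le_of_eq ?_)
    rw [mul_pow, mul_pow, mul_pow, Real.sq_sqrt hKs.le]
    ring
  have h3 : (sec Ω a).toReal ^ 2 ≤ (360 * Real.sqrt Cs * Real.sqrt K * P) ^ 2 := by
    have h4 : (sec Ω a).toReal ^ 2 * s ≤ Cs * (360 ^ 2 * (K * s) * P ^ 2) :=
      hsec2.trans (mul_le_mul_of_nonneg_left hsq hCs.le)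
    have h5 : (360 * Real.sqrt Cs * Real.sqrt K * P) ^ 2 = 360 ^ 2 * Cs * K * P ^ 2 := by
      rw [mul_pow, mul_pow, mul_pow, Real.sq_sqrt hCs.le, Real.sq_sqrt hK.le]
    rw [h5]
    have h6 : (sec Ω a).toReal ^ 2 * s ≤ (360 ^ 2 * Cs * K * P ^ 2) * s := by
      refine h4.trans (le_of_eq ?_)
      ring
    exact le_of_mul_le_mul_right h6 hspos
  have h7 : (sec Ω a).toReal ≤ 360 * Real.sqrt Cs * Real.sqrt K * P :=
    (pow_le_pow_iff_left₀ ENNReal.toReal_nonneg (by positivity) two_ne_zero).1 h3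
  calc sec Ω a = ENNReal.ofReal (sec Ω a).toReal := (ENNReal.ofReal_toReal hsec1).symm
    _ ≤ ENNReal.ofReal (360 * Real.sqrt Cs * Real.sqrt K * P) := ENNReal.ofReal_le_ofReal h7
    _ = _ := by rw [ENNReal.ofReal_mul (by positivity), ENNReal.ofReal_toReal hp]

end Pool.Agent.Q188.NC
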