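import Pool.Agent.Q188.NC.Asm

/-!
# The KLS inequality for norm compositions, second part and conclusion
-/

set_option autoImplicit false

namespace Pool.Agent.Q188.NC

open MeasureTheory Set Filter Topology
open scoped ENNReal InnerProductSpace
open Pool.Agent.W695.KH (EV VV)

variable {b k : ℕ} {d : Fin b → ℕ}
variable {B : ∀ i, Set (EuclideanSpace ℝ (Fin (d i)))} {Ω : Set (Ee d k)}

theorem qq_int {n : ℕ} {B : Set (EuclideanSpace ℝ (Fin n))} (h : Dom B) :
    Integrable (fun y => ‖y‖ ^ 2 / gauge B y ^ 2) (bh B) := by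
  have e : (fun y : EuclideanSpace ℝ (Fin n) => ‖y‖ ^ 2 / gauge B y ^ 2) =
      fun y => ∑ j, ⟪EuclideanSpace.single j (1 : ℝ), y⟫_ℝ ^ 2 / gauge B y ^ 2 := by
    ext y
    rw [EuclideanSpace.norm_sq_eq, Finset.sum_div]
    refine Finset.sum_congr rfl fun j _ => ?_
    rw [EuclideanSpace.inner_single_left, Real.norm_eq_abs, sq_abs]
    simp
  rw [e]
  exact integrable_finsetSum _ fun j _ => pp_int h _

theorem int_eval' (H : ∀ i, Dom (B i)) (i : Fin b) {φ : EuclideanSpace ℝ (Fin (d i)) → ℝ}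
    (hφ : Integrable φ (bh (B i))) :
    Integrable (fun Y : Yy d => φ (Y i)) (Measure.pi fun i => bh (B i)) := by
  have : ∀ i, IsProbabilityMeasure (bh (B i)) := fun i => (H i).bh_prob
  exact (measurePreserving_eval (fun i => bh (B i)) i).integrable_comp_of_integrable hφ

/-- the mean over the directions -/
theorem mean_dist (H : NCm B Ω) {f : Ee d k → ℝ} (hf : ContDiff ℝ 1 f)
    (hf' : ∀ x, ‖fderiv ℝ f x‖ ≤ 1) (a c : Aa b k) :
    ((∫ Y, f (PhE B (a, Y)) ∂(Measure.pi fun i => bh (B i))) -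
      ∫ Y, f (PhE B (c, Y)) ∂(Measure.pi fun i => bh (B i))) ^ 2 ≤
      ∑ i, (a.1 i - c.1 i) ^ 2 * qq (B i) + ∑ j, (a.2 j - c.2 j) ^ 2 := by
  have : ∀ i, IsProbabilityMeasure (bh (B i)) := fun i => (H.dB i).bh_prob
  obtain ⟨C, hC0, hC⟩ := PhE_bd (k := k) H.dB
  have hPm := PhE_meas (k := k) H.dB
  have hm : ∀ a : Aa b k, Measurable fun Y => f (PhE B (a, Y)) := fun a =>
    hf.continuous.measurable.comp (hPm.comp measurable_prodMk_left)
  have hM : ∀ (a : Aa b k) (Y : Yy d), |f (PhE B (a, Y))| ≤ |f 0| + C * ‖a‖ := fun a Y =>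
    (f_bd hf hf' _).trans (by have := hC a Y; linarith)
  rw [← integral_sub (int_bdd (hm a) (hM a)) (int_bdd (hm c) (hM c))]
  refine (sq_int_le ((hm a).sub (hm c)) (M := (|f 0| + C * ‖a‖) + (|f 0| + C * ‖c‖)) fun Y =>
    (abs_sub _ _).trans (add_le_add (hM a Y) (hM c Y))).trans ?_
  have hi : ∀ i, Integrable (fun Y : Yy d => (a.1 i - c.1 i) ^ 2 *
      (‖Y i‖ ^ 2 / gauge (B i) (Y i) ^ 2)) (Measure.pi fun i => bh (B i)) := fun i =>
    (int_eval' H.dB i (φ := fun y => ‖y‖ ^ 2 / gauge (B i) y ^ 2) (qq_int (H.dB i))).const_mul _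
  have hi2 : Integrable (fun Y : Yy d => ∑ i, (a.1 i - c.1 i) ^ 2 *
      (‖Y i‖ ^ 2 / gauge (B i) (Y i) ^ 2)) (Measure.pi fun i => bh (B i)) :=
    integrable_finsetSum _ fun i _ => hi i
  calc _ ≤ ∫ Y, (∑ i, (a.1 i - c.1 i) ^ 2 * (‖Y i‖ ^ 2 / gauge (B i) (Y i) ^ 2) +
        ∑ j, (a.2 j - c.2 j) ^ 2) ∂(Measure.pi fun i => bh (B i)) := by
        refine integral_mono_of_nonneg (Eventually.of_forall fun Y => sq_nonneg _)
          (hi2.add (integrable_const _)) (Eventually.of_forall fun Y => ?_)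
        simp only
        rw [← PhE_dist (B := B) a c Y, ← sq_abs]
        have := lip_of hf hf' (PhE B (a, Y)) (PhE B (c, Y))
        rw [one_mul] at this
        exact pow_le_pow_left₀ (abs_nonneg _) this 2
    _ = _ := by
        rw [integral_add hi2 (integrable_const _), integral_finsetSum _ fun i _ => hi i]
        simp only [integral_const, probReal_univ, smul_eq_mul, one_mul]
        congr 1
        refine Finset.sum_congr rfl fun i _ => ?_
        rw [integral_const_mul]
        congr 1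
        have hgm : Measurable (gauge (B i)) := (H.dB i).cont.measurable
        exact int_eval H.dB i (φ := fun y => ‖y‖ ^ 2 / gauge (B i) y ^ 2)
          (Measurable.div (by fun_prop) (hgm.pow_const 2))

/-- contribution of the radii -/
theorem part_two (H : NCm B Ω) {e : Yy d} (he : ∀ i, gauge (B i) (e i) = 1) {s : ℝ}
    (hs : ∀ θ : Ee d k, EV Ω (fun x => ⟪θ, x⟫_ℝ ^ 2) ≤ s * ‖θ‖ ^ 2) {f : Ee d k → ℝ}
    (hf : ContDiff ℝ 1 f) (hf' : ∀ x, ‖fderiv ℝ f x‖ ≤ 1) :
    ∫ a, ((∫ Y, Gg B Ω e f (a, Y) ∂(Measure.pi fun i => bh (B i))) -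
      ∫ a', ∫ Y', Gg B Ω e f (a', Y') ∂(Measure.pi fun i => bh (B i)) ∂(al Ω e)) ^ 2 ∂(al Ω e) ≤
      s * (b + k) := by
  have := al_prob H he
  have : ∀ i, IsProbabilityMeasure (bh (B i)) := fun i => (H.dB i).bh_prob
  obtain ⟨M, hM⟩ := Gg_bd H he hf hf'
  have hm := Gg_meas H e hf.continuous
  set m : Aa b k → ℝ := fun a => ∫ Y, Gg B Ω e f (a, Y) ∂(Measure.pi fun i => bh (B i)) with hmd
  have hmm : Measurable m :=
    (hm.stronglyMeasurable.integral_prod_right' (ν := Measure.pi fun i => bh (B i))).measurable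
  have hmM : ∀ a, |m a| ≤ M := by
    intro a
    have := norm_integral_le_of_norm_le_const (μ := Measure.pi fun i => bh (B i))
      (f := fun c => Gg B Ω e f (a, c)) (C := M) (Eventually.of_forall fun c => hM _)
    rwa [probReal_univ, mul_one, Real.norm_eq_abs] at this
  have i1 : Integrable m (al Ω e) := int_bdd hmm hmM
  have i2 : Integrable (fun a => m a ^ 2) (al Ω e) := int_bdd (hmm.pow_const 2) (M := M ^ 2) fun z => by
    rw [abs_of_nonneg (sq_nonneg _), ← sq_abs]
    exact pow_le_pow_left₀ (abs_nonneg _) (hmM z) 2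
  set a0 : Aa b k := (fun i => ∫ a, a.1 i ∂(al Ω e), 0) with ha0
  refine (var_le i1 i2 (∫ Y, f (PhE B (a0, Y)) ∂(Measure.pi fun i => bh (B i)))).trans ?_
  have c1 : ∀ i, Integrable (fun a : Aa b k => a.1 i) (al Ω e) := fun i =>
    al_int H he (φ := fun a : Aa b k => a.1 i) ((continuous_apply i).comp continuous_fst)
  have c2 : ∀ i, Integrable (fun a : Aa b k => a.1 i ^ 2) (al Ω e) := fun i =>
    al_int H he (φ := fun a : Aa b k => a.1 i ^ 2) (((continuous_apply i).comp continuous_fst).pow 2)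
  have c3 : ∀ j, Integrable (fun a : Aa b k => (a.2 j - a0.2 j) ^ 2) (al Ω e) := fun j =>
    al_int H he (φ := fun a : Aa b k => (a.2 j - a0.2 j) ^ 2)
      ((((continuous_apply j).comp continuous_snd).sub continuous_const).pow 2)
  have c4 : ∀ i, Integrable (fun a : Aa b k => (a.1 i - a0.1 i) ^ 2 * qq (B i)) (al Ω e) := fun i =>
    (al_int H he (φ := fun a : Aa b k => (a.1 i - a0.1 i) ^ 2)
      ((((continuous_apply i).comp continuous_fst).sub continuous_const).pow 2)).mul_const _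
  have c5 : Integrable (fun a : Aa b k => ∑ i, (a.1 i - a0.1 i) ^ 2 * qq (B i)) (al Ω e) :=
    integrable_finsetSum _ fun i _ => c4 i
  have c6 : Integrable (fun a : Aa b k => ∑ j, (a.2 j - a0.2 j) ^ 2) (al Ω e) :=
    integrable_finsetSum _ fun i _ => c3 i
  calc _ ≤ ∫ a, (∑ i, (a.1 i - a0.1 i) ^ 2 * qq (B i) + ∑ j, (a.2 j - a0.2 j) ^ 2) ∂(al Ω e) := by
        refine integral_mono_of_nonneg (Eventually.of_forall fun Y => sq_nonneg _)
          (c5.add c6) ?_
        filter_upwards [ae_D0 H e] with a ha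
        have h1 : m a = ∫ Y, f (PhE B (a, Y)) ∂(Measure.pi fun i => bh (B i)) := by
          rw [hmd]
          simp only [Gg_of e f ha]
        rw [h1]
        exact mean_dist H hf hf' a a0
    _ = ∑ i, (∫ a, (a.1 i - a0.1 i) ^ 2 ∂(al Ω e)) * qq (B i) +
          ∑ j, ∫ a, (a.2 j - a0.2 j) ^ 2 ∂(al Ω e) := by
        rw [integral_add c5 c6, integral_finsetSum _ fun i _ => c4 i,
          integral_finsetSum _ fun i _ => c3 i]
        congr 1
        refine Finset.sum_congr rfl fun i _ => ?_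
        rw [integral_mul_const]
    _ ≤ ∑ _i : Fin b, s + ∑ _j : Fin k, s := by
        refine add_le_add (Finset.sum_le_sum fun i _ => ?_) (Finset.sum_le_sum fun j _ => ?_)
        · have e1 := var_eq (c1 i) (c2 i) (a0.1 i)
          have e2 : (∫ a, a.1 i ∂(al Ω e)) - a0.1 i = 0 := sub_self _
          rw [e2] at e1
          rw [e1]
          have hr := radii H he i
          have hq := cov_q H he hs i
          have hq0 := qq_nn (B i)
          have hd : (1 : ℝ) ≤ d i := by exact_mod_cast H.pos i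
          set X := ∫ a, a.1 i ^ 2 ∂(al Ω e)
          set Z := ∫ a, a.1 i ∂(al Ω e)
          have hX : 0 < X := rho_pos H he i
          have h1 : ((d i : ℝ) + 1) * (X - Z ^ 2 + 0 ^ 2) ≤ X := by nlinarith
          have h2 : ((d i : ℝ) + 1) * ((X - Z ^ 2 + 0 ^ 2) * qq (B i)) ≤ d i * s := by
            calc ((d i : ℝ) + 1) * ((X - Z ^ 2 + 0 ^ 2) * qq (B i))
                = (((d i : ℝ) + 1) * (X - Z ^ 2 + 0 ^ 2)) * qq (B i) := by ring
              _ ≤ X * qq (B i) := mul_le_mul_of_nonneg_right h1 hq0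
              _ ≤ d i * s := by linarith
          have hs0 : 0 ≤ s := by
            have : 0 ≤ (d i : ℝ) * s := (mul_nonneg hq0 hX.le).trans hq
            nlinarith
          have h3 : ((d i : ℝ) + 1) * ((X - Z ^ 2 + 0 ^ 2) * qq (B i)) ≤ (d i + 1) * s := by linarith
          exact le_of_mul_le_mul_left h3 (by positivity)
        · have h1 := hs (EuclideanSpace.single (Sum.inr j) (1 : ℝ))
          rw [cov_t H he j] at h1
          have h2 : ∀ a : Aa b k, (a.2 j - a0.2 j) ^ 2 = a.2 j ^ 2 := by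
            intro a
            have : a0.2 j = 0 := rfl
            rw [this, sub_zero]
          simp only [h2]
          simpa using h1
    _ = s * (b + k) := by
        simp only [Finset.sum_const, Finset.card_univ, Fintype.card_fin, nsmul_eq_mul]
        ring

/-- **KLS for norm compositions** -/
theorem kls_comp (H : NCm B Ω) {K : Fin b → ℝ} (hK0 : ∀ i, 0 ≤ K i) (hK : ∀ i, KLS (K i) (B i)) :
    KLS (2 * ∑ i, K i + 2 * b + k) Ω := by
  intro s hs f hf hf'
  obtain ⟨e, he⟩ := exists_ref H.dB H.pos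
  have := al_prob H he
  have : ∀ i, IsProbabilityMeasure (bh (B i)) := fun i => (H.dB i).bh_prob
  obtain ⟨M, hM⟩ := Gg_bd H he hf hf'
  have hm := Gg_meas H e hf.continuous
  rw [VV_eq H he hf hf', var_prod (al Ω e) (Measure.pi fun i => bh (B i)) _ hm M hM]
  have h1 := part_one H he hK0 hK hs hf hf'
  have h2 := part_two H he hs hf hf'
  have h3 : ∑ i, (2 * K i + 1) = 2 * ∑ i, K i + b := by
    rw [Finset.sum_add_distrib, ← Finset.mul_sum]
    simp
  rw [h3] at h1
  calc _ ≤ s * (2 * ∑ i, K i + b) + s * (b + k) := add_le_add h1 h2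
    _ = _ := by ring

end Pool.Agent.Q188.NC
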