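import Mathlib

/-!
# Efron-Stein with uniform bounds
-/

set_option autoImplicit false

namespace Pool.Agent.Q188.NC

open MeasureTheory Set Filter Topology

theorem int_bdd {A : Type*} [MeasurableSpace A] {μ : Measure A} [IsFiniteMeasure μ] {g : A → ℝ}
    (hg : Measurable g) {M : ℝ} (hM : ∀ x, |g x| ≤ M) : Integrable g μ :=
  Integrable.of_bound hg.aestronglyMeasurable M (Eventually.of_forall hM)

/-- `(∫ g)² ≤ ∫ g²` -/
theorem sq_int_le {A : Type*} [MeasurableSpace A] {μ : Measure A} [IsProbabilityMeasure μ] {g : A → ℝ}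
    (hg : Measurable g) {M : ℝ} (hM : ∀ x, |g x| ≤ M) : (∫ x, g x ∂μ) ^ 2 ≤ ∫ x, g x ^ 2 ∂μ := by
  have hL : MemLp g 2 μ := MemLp.of_bound hg.aestronglyMeasurable M (Eventually.of_forall hM)
  have h1 := ProbabilityTheory.variance_nonneg g μ
  rw [ProbabilityTheory.variance_eq_sub hL] at h1
  have h2 : (∫ x, (g ^ 2) x ∂μ) = ∫ x, g x ^ 2 ∂μ := rfl
  rw [h2] at h1
  linarith

/-- decomposition of the variance on a product -/
theorem var_prod {A C : Type*} [MeasurableSpace A] [MeasurableSpace C] (α : Measure A) (γ : Measure C)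
    [IsProbabilityMeasure α] [IsProbabilityMeasure γ] (G : A × C → ℝ) (hG : Measurable G) (M : ℝ)
    (hM : ∀ x, |G x| ≤ M) :
    ∫ z, (G z - ∫ w, G w ∂(α.prod γ)) ^ 2 ∂(α.prod γ) =
      (∫ a, ∫ c, (G (a, c) - ∫ c', G (a, c') ∂γ) ^ 2 ∂γ ∂α) +
        ∫ a, ((∫ c, G (a, c) ∂γ) - ∫ a', ∫ c', G (a', c') ∂γ ∂α) ^ 2 ∂α := by
  have hM0 : ∀ x : A × C, 0 ≤ M := fun x => (abs_nonneg _).trans (hM x)
  have hiG : Integrable G (α.prod γ) := int_bdd hG hM
  set m : A → ℝ := fun a => ∫ c, G (a, c) ∂γ with hm
  have hmm : Measurable m := by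
    have := hG.stronglyMeasurable.integral_prod_right' (ν := γ)
    exact this.measurable
  have hmM : ∀ a, |m a| ≤ M := by
    intro a
    have := norm_integral_le_of_norm_le_const (μ := γ) (f := fun c => G (a, c)) (C := M)
      (Eventually.of_forall fun c => hM _)
    simpa using this
  have hc : ∫ w, G w ∂(α.prod γ) = ∫ a, m a ∂α := integral_prod G hiG
  rw [hc]
  set c0 := ∫ a, m a ∂α with hc0
  have hc0M : |c0| ≤ M := by
    have := norm_integral_le_of_norm_le_const (μ := α) (f := m) (C := M)
      (Eventually.of_forall fun c => hmM _)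
    simpa using this
  have hi1 : Integrable (fun z => (G z - c0) ^ 2) (α.prod γ) := by
    refine int_bdd (M := (M + M) ^ 2) (by fun_prop) fun x => ?_
    rw [abs_of_nonneg (sq_nonneg _), ← sq_abs]
    exact pow_le_pow_left₀ (abs_nonneg _) ((abs_sub _ _).trans (add_le_add (hM _) hc0M)) 2
  rw [integral_prod _ hi1]
  have h2 : ∀ a, ∫ c, (G (a, c) - c0) ^ 2 ∂γ =
      ∫ c, (G (a, c) - m a) ^ 2 ∂γ + (m a - c0) ^ 2 := by
    intro a
    have hGa : Measurable fun c => G (a, c) := by fun_prop
    have e : ∀ c, (G (a, c) - c0) ^ 2 =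
        (G (a, c) - m a) ^ 2 + (2 * (m a - c0) * (G (a, c) - m a) + (m a - c0) ^ 2) := fun c => by ring
    have i1 : Integrable (fun c => (G (a, c) - m a) ^ 2) γ := by
      refine int_bdd (M := (M + M) ^ 2) (by fun_prop) fun x => ?_
      rw [abs_of_nonneg (sq_nonneg _), ← sq_abs]
      exact pow_le_pow_left₀ (abs_nonneg _) ((abs_sub _ _).trans (add_le_add (hM _) (hmM _))) 2
    have i2 : Integrable (fun c => G (a, c)) γ := int_bdd hGa (fun c => hM _)
    simp only [e]
    have i6 : Integrable (fun c => G (a, c) - m a) γ := i2.sub (integrable_const _)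
    have i7 : Integrable (fun c => 2 * (m a - c0) * (G (a, c) - m a)) γ := i6.const_mul _
    have i5 : Integrable (fun c => 2 * (m a - c0) * (G (a, c) - m a) + (m a - c0) ^ 2) γ :=
      i7.add (integrable_const _)
    rw [integral_add i1 i5, integral_add i7 (integrable_const _),
      integral_const_mul, integral_sub i2 (integrable_const _)]
    simp only [integral_const, probReal_univ, smul_eq_mul, one_mul]
    have : ∫ c, G (a, c) ∂γ = m a := rfl
    rw [this]
    ring
  simp only [h2]
  have i3 : Integrable (fun a => ∫ c, (G (a, c) - m a) ^ 2 ∂γ) α := by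
    refine int_bdd (M := (M + M) ^ 2) ?_ fun a => ?_
    · have hmeas : Measurable fun z : A × C => (G z - m z.1) ^ 2 := by fun_prop
      exact (hmeas.stronglyMeasurable.integral_prod_right' (ν := γ)).measurable
    · have := norm_integral_le_of_norm_le_const (μ := γ) (f := fun c => (G (a, c) - m a) ^ 2)
        (C := (M + M) ^ 2) (Eventually.of_forall fun c => by
          rw [Real.norm_eq_abs, abs_of_nonneg (sq_nonneg _), ← sq_abs]
          exact pow_le_pow_left₀ (abs_nonneg _) ((abs_sub _ _).trans (add_le_add (hM _) (hmM _))) 2)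
      simpa using this
  have i4 : Integrable (fun a => (m a - c0) ^ 2) α := by
    refine int_bdd (M := (M + M) ^ 2) (by fun_prop) fun x => ?_
    rw [abs_of_nonneg (sq_nonneg _), ← sq_abs]
    exact pow_le_pow_left₀ (abs_nonneg _) ((abs_sub _ _).trans (add_le_add (hmM _) hc0M)) 2
  rw [integral_add i3 i4]

theorem es : ∀ {n : ℕ} {X : Fin n → Type} [∀ i, MeasurableSpace (X i)] (μ : ∀ i, Measure (X i))
    [∀ i, IsProbabilityMeasure (μ i)] (g : (∀ i, X i) → ℝ) (_ : Measurable g) (M : ℝ)
    (_ : ∀ x, |g x| ≤ M) (v : Fin n → ℝ)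
    (_ : ∀ i x, ∫ t, (g (Function.update x i t) - ∫ t', g (Function.update x i t') ∂(μ i)) ^ 2 ∂(μ i)
      ≤ v i), ∫ x, (g x - ∫ y, g y ∂(Measure.pi μ)) ^ 2 ∂(Measure.pi μ) ≤ ∑ i, v i := by
  intro n
  induction n with
  | zero =>
    intro X _ μ _ g hg M hM v hv
    have h1 : ∀ x y : (∀ i, X i), g x = g y := fun x y => by rw [Subsingleton.elim x y]
    have h2 : ∀ x, ∫ y, g y ∂(Measure.pi μ) = g x := by
      intro x
      rw [integral_congr_ae (Eventually.of_forall fun y => h1 y x)]
      simp
    rw [integral_congr_ae (g := fun _ => 0) (Eventually.of_forall fun x => by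
      show (g x - ∫ y, g y ∂(Measure.pi μ)) ^ 2 = 0
      rw [h2 x]; ring)]
    simp
  | succ n ih =>
    intro X _ μ _ g hg M hM v hv
    have h1 := (measurePreserving_piFinSuccAbove μ 0).symm
    set e := MeasurableEquiv.piFinSuccAbove X 0 with he
    have hint : ∀ φ : (∀ i, X i) → ℝ, ∫ x, φ x ∂(Measure.pi μ) =
        ∫ z, φ (e.symm z) ∂((μ 0).prod (Measure.pi fun j => μ (Fin.succAbove 0 j))) := fun φ =>
      (h1.integral_comp e.symm.measurableEmbedding φ).symm
    rw [hint, hint]
    set G : X 0 × (∀ j, X (Fin.succAbove 0 j)) → ℝ := fun z => g (e.symm z) with hG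
    have hGm : Measurable G := hg.comp e.symm.measurable
    have hGM : ∀ z, |G z| ≤ M := fun z => hM _
    set ν := Measure.pi fun j => μ (Fin.succAbove 0 j) with hν
    have hνp : IsProbabilityMeasure ν := by rw [hν]; infer_instance
    have hvp := var_prod (μ 0) ν G hGm M hGM
    rw [hvp, Fin.sum_univ_succAbove _ 0, add_comm]
    refine add_le_add ?_ ?_
    · -- the first coordinate
      have hGr : ∀ r, Measurable fun a => G (a, r) := fun r => by fun_prop
      set q : (∀ j, X (Fin.succAbove 0 j)) → ℝ := fun r => ∫ a, G (a, r) ∂(μ 0) with hq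
      have hqm : Measurable q :=
        (hGm.comp measurable_swap).stronglyMeasurable.integral_prod_right' (ν := μ 0) |>.measurable
      have hqM : ∀ r, |q r| ≤ M := by
        intro r
        have := norm_integral_le_of_norm_le_const (μ := μ 0) (f := fun a => G (a, r)) (C := M)
          (Eventually.of_forall fun c => hGM _)
        change |∫ a, G (a, r) ∂(μ 0)| ≤ M
        simpa using this
      have hsw : ∫ a', ∫ c', G (a', c') ∂ν ∂(μ 0) = ∫ r, q r ∂ν :=
        integral_integral_swap (int_bdd hGm hGM)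
      have h3 : ∀ a, ((∫ c, G (a, c) ∂ν) - ∫ a', ∫ c', G (a', c') ∂ν ∂(μ 0)) ^ 2 ≤
          ∫ r, (G (a, r) - q r) ^ 2 ∂ν := by
        intro a
        have hGa : Measurable fun c => G (a, c) := by fun_prop
        rw [hsw, ← integral_sub (int_bdd hGa fun c => hGM _) (int_bdd hqm hqM)]
        exact sq_int_le (hGa.sub hqm) (M := M + M) fun x =>
          (abs_sub _ _).trans (add_le_add (hGM _) (hqM _))
      have hD : Measurable fun z : X 0 × (∀ j, X (Fin.succAbove 0 j)) => (G z - q z.2) ^ 2 := by
        fun_prop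
      have hDM : ∀ z : X 0 × (∀ j, X (Fin.succAbove 0 j)), |(G z - q z.2) ^ 2| ≤ (M + M) ^ 2 := by
        intro z
        rw [abs_of_nonneg (sq_nonneg _), ← sq_abs]
        exact pow_le_pow_left₀ (abs_nonneg _) ((abs_sub _ _).trans (add_le_add (hGM _) (hqM _))) 2
      have i1 : Integrable (fun a => ∫ r, (G (a, r) - q r) ^ 2 ∂ν) (μ 0) := by
        refine int_bdd (M := (M + M) ^ 2)
          (hD.stronglyMeasurable.integral_prod_right' (ν := ν)).measurable fun a => ?_
        have := norm_integral_le_of_norm_le_const (μ := ν) (f := fun r => (G (a, r) - q r) ^ 2)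
          (C := (M + M) ^ 2) (Eventually.of_forall fun c => hDM (a, c))
        rwa [probReal_univ, mul_one, Real.norm_eq_abs] at this
      have h4 : ∫ a, ((∫ c, G (a, c) ∂ν) - ∫ a', ∫ c', G (a', c') ∂ν ∂(μ 0)) ^ 2 ∂(μ 0) ≤
          ∫ a, ∫ r, (G (a, r) - q r) ^ 2 ∂ν ∂(μ 0) :=
        integral_mono_of_nonneg (Eventually.of_forall fun a => sq_nonneg _) i1
          (Eventually.of_forall h3)
      have h5 : ∫ a, ∫ r, (G (a, r) - q r) ^ 2 ∂ν ∂(μ 0) =
          ∫ r, ∫ a, (G (a, r) - q r) ^ 2 ∂(μ 0) ∂ν := integral_integral_swap (int_bdd hD hDM)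
      have h6 : ∀ r, ∫ a, (G (a, r) - q r) ^ 2 ∂(μ 0) ≤ v 0 := by
        intro r
        have hne : Nonempty (X 0) := nonempty_of_isProbabilityMeasure (μ 0)
        have e1 : ∀ t, G (t, r) = g (Function.update (e.symm (hne.some, r)) 0 t) := by
          intro t
          show g (e.symm (t, r)) = _
          congr 1
          exact (Fin.update_insertNth 0 hne.some t r).symm
        have := hv 0 (e.symm (hne.some, r))
        simp only [← e1] at this
        exact this
      refine h4.trans ?_
      rw [h5]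
      have h7 : ∫ r, ∫ a, (G (a, r) - q r) ^ 2 ∂(μ 0) ∂ν ≤ ∫ _r, v 0 ∂ν :=
        integral_mono_of_nonneg (Eventually.of_forall fun r => integral_nonneg fun a => sq_nonneg _)
          (integrable_const _) (Eventually.of_forall h6)
      rwa [integral_const, probReal_univ, one_smul] at h7
    · have h3 : ∀ a, ∫ c, (G (a, c) - ∫ c', G (a, c') ∂ν) ^ 2 ∂ν ≤
          ∑ j, v (Fin.succAbove 0 j) := by
        intro a
        refine ih (fun j => μ (Fin.succAbove 0 j)) (fun c => G (a, c)) (by fun_prop) M
          (fun x => hGM _) (fun j => v (Fin.succAbove 0 j)) fun j r => ?_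
        have e1 : ∀ t, G (a, Function.update r j t) =
            g (Function.update (e.symm (a, r)) (Fin.succAbove 0 j) t) := by
          intro t
          show g (e.symm (a, Function.update r j t)) = _
          congr 1
          exact Fin.insertNth_update 0 a j t r
        have := hv (Fin.succAbove 0 j) (e.symm (a, r))
        simp only [← e1] at this
        exact this
      have h7 : ∫ a, ∫ c, (G (a, c) - ∫ c', G (a, c') ∂ν) ^ 2 ∂ν ∂(μ 0) ≤
          ∫ _a, ∑ j, v (Fin.succAbove 0 j) ∂(μ 0) :=
        integral_mono_of_nonneg (Eventually.of_forall fun r => integral_nonneg fun a => sq_nonneg _)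
          (integrable_const _) (Eventually.of_forall h3)
      simpa using h7

end Pool.Agent.Q188.NC
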