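import Pool.Agent.H212R2.KLS.T1

/-!
# Moments of a linear functional with respect to a log-concave measure
-/

set_option autoImplicit false

namespace Pool.Agent.Q188.NC

open MeasureTheory Set Filter Topology
open scoped ENNReal

/-- second order term of `P(a) P(-a) ≤ P(0)²` -/
theorem second_order (n : ℕ) (c : ℕ → ℝ) (δ : ℝ) (hδ : 0 < δ)
    (h : ∀ a : ℝ, 0 < a → a < δ →
      (∑ m ∈ Finset.range (n + 2), a ^ m * c m) * (∑ m ∈ Finset.range (n + 2), (-a) ^ m * c m) ≤
        c 0 ^ 2) (hn : 1 ≤ n) : 2 * c 0 * c 2 ≤ c 1 ^ 2 := by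
  set S : ℝ → ℝ := fun a => ∑ m ∈ Finset.range n, a ^ m * c (m + 2) with hS
  have hP : ∀ a : ℝ, ∑ m ∈ Finset.range (n + 2), a ^ m * c m = c 0 + a * c 1 + a ^ 2 * S a := by
    intro a
    rw [Finset.sum_range_succ', Finset.sum_range_succ', hS]
    simp only [Finset.mul_sum]
    have : ∑ k ∈ Finset.range n, a ^ (k + 1 + 1) * c (k + 1 + 1) =
        ∑ k ∈ Finset.range n, a ^ 2 * (a ^ k * c (k + 2)) :=
      Finset.sum_congr rfl fun k _ => by ring
    rw [this]
    ring
  have hSc : Continuous S := by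
    rw [hS]
    exact continuous_finsetSum _ fun m _ => by fun_prop
  set T : ℝ → ℝ := fun a => -(c 1 ^ 2) + c 0 * (S a + S (-a)) + a * c 1 * (S (-a) - S a) +
    a ^ 2 * (S a * S (-a)) with hT
  have hTc : Continuous T := by rw [hT]; fun_prop
  have hT0 : T 0 = 2 * c 0 * c 2 - c 1 ^ 2 := by
    have hS0 : S 0 = c 2 := by
      obtain ⟨m, rfl⟩ : ∃ m, n = m + 1 := ⟨n - 1, by omega⟩
      rw [hS]
      simp only
      rw [Finset.sum_range_succ']
      simp
    rw [hT]
    simp only [neg_zero, hS0]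
    ring
  have hle : ∀ a : ℝ, 0 < a → a < δ → T a ≤ 0 := by
    intro a ha ha'
    have h1 := h a ha ha'
    rw [hP, hP] at h1
    have h2 : (c 0 + a * c 1 + a ^ 2 * S a) * (c 0 + -a * c 1 + (-a) ^ 2 * S (-a)) - c 0 ^ 2 =
        a ^ 2 * T a := by
      rw [hT]
      ring
    have h3 : a ^ 2 * T a ≤ 0 := by rw [← h2]; linarith
    by_contra hcon
    push Not at hcon
    have : 0 < a ^ 2 * T a := by positivity
    linarith
  have h0 : T 0 ≤ 0 := by
    have ht : Tendsto T (𝓝[>] 0) (𝓝 (T 0)) := (hTc.tendsto 0).mono_left nhdsWithin_le_nhds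
    refine le_of_tendsto ht ?_
    filter_upwards [Ioo_mem_nhdsGT hδ] with a ha
    exact hle a ha.1 ha.2
  rw [hT0] at h0
  linarith

variable {F : Type*} [NormedAddCommGroup F] [NormedSpace ℝ F] [FiniteDimensional ℝ F]
    [MeasurableSpace F] [BorelSpace F] (ν : Measure F) [ν.IsAddHaarMeasure]

/-- weights -/
structure Wg (h : F → ℝ) : Prop where
  nn : ∀ x, 0 ≤ h x
  meas : Measurable h
  bd : ∃ M, ∀ x, h x ≤ M
  sp : ∃ R, ∀ x, R < ‖x‖ → h x = 0
  mid : ∀ x y, h x * h y ≤ h ((1 / 2 : ℝ) • (x + y)) ^ 2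

variable {h : F → ℝ}

theorem Wg.intg (H : Wg h) {φ : F → ℝ} (hφ : Continuous φ) : Integrable (fun x => φ x * h x) ν := by
  obtain ⟨M, hM⟩ := H.bd
  obtain ⟨R, hR⟩ := H.sp
  have hc : IsCompact (Metric.closedBall (0 : F) R) := isCompact_closedBall _ _
  obtain ⟨C, hC⟩ := hc.exists_bound_of_continuousOn hφ.continuousOn
  have hM0 : 0 ≤ M := (H.nn 0).trans (hM 0)
  have h1 : Integrable ((Metric.closedBall (0 : F) R).indicator fun _ => |C| * M) ν :=
    (integrable_indicator_iff hc.measurableSet).2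
      (integrableOn_const hc.measure_lt_top.ne)
  refine h1.mono' (hφ.measurable.mul H.meas).aestronglyMeasurable (Eventually.of_forall fun x => ?_)
  by_cases hx : x ∈ Metric.closedBall (0 : F) R
  · rw [indicator_of_mem hx, norm_mul, Real.norm_of_nonneg (H.nn x)]
    exact mul_le_mul ((hC x hx).trans (le_abs_self C)) (hM x) (H.nn x) (abs_nonneg C)
  · rw [indicator_of_notMem hx, hR x (by simpa using hx), mul_zero, norm_zero]

theorem mom_pos (H : Wg h) (ℓ : F →L[ℝ] ℝ) (δ : ℝ) (hδ : 0 < δ) (hp : ∀ x, h x ≠ 0 → δ ≤ ℓ x)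
    (n : ℕ) (hn : 1 ≤ n) :
    n * (∫ x, ℓ x ^ (n + 1) * h x ∂ν) * (∫ x, ℓ x ^ (n - 1) * h x ∂ν) ≤
      (n + 1) * (∫ x, ℓ x ^ n * h x ∂ν) ^ 2 := by
  set φ : ℕ → ℝ := fun p => ∫ x, ℓ x ^ p * h x ∂ν with hφ
  set c : ℕ → ℝ := fun m => (n + 1).choose m * φ (n + 1 - m) with hc
  have hexp : ∀ a : ℝ, ∫ x, (a + ℓ x) ^ (n + 1) * h x ∂ν = ∑ m ∈ Finset.range (n + 2), a ^ m * c m := by
    intro a
    have e : ∀ x, (a + ℓ x) ^ (n + 1) * h x =
        ∑ m ∈ Finset.range (n + 2), a ^ m * (n + 1).choose m * (ℓ x ^ (n + 1 - m) * h x) := by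
      intro x
      rw [add_pow, Finset.sum_mul]
      exact Finset.sum_congr rfl fun m _ => by ring
    simp only [e]
    rw [integral_finsetSum _ fun m _ => (H.intg ν (by fun_prop)).const_mul _]
    refine Finset.sum_congr rfl fun m _ => ?_
    rw [integral_const_mul, hc]
    ring
  have hnn : ∀ (a : ℝ), -δ < a → ∀ x, 0 ≤ (a + ℓ x) ^ (n + 1) * h x := by
    intro a ha x
    by_cases hx : h x = 0
    · rw [hx, mul_zero]
    · have := hp x hx
      exact mul_nonneg (pow_nonneg (by linarith) _) (H.nn x)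
  have hlint : ∀ a : ℝ, -δ < a → ∫⁻ x, ENNReal.ofReal ((a + ℓ x) ^ (n + 1) * h x) ∂ν =
      ENNReal.ofReal (∫ x, (a + ℓ x) ^ (n + 1) * h x ∂ν) := by
    intro a ha
    rw [ofReal_integral_eq_lintegral_ofReal (H.intg ν (by fun_prop))
      (Eventually.of_forall (hnn a ha))]
  have key := second_order n c δ hδ (fun a ha ha' => by
    have hm := H.meas
    have hPL := Pool.Agent.H212R2.KLS.PL ν (1 / 2) (by norm_num) (by norm_num)
      (fun x => ENNReal.ofReal ((a + ℓ x) ^ (n + 1) * h x))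
      (fun x => ENNReal.ofReal ((-a + ℓ x) ^ (n + 1) * h x))
      (fun x => ENNReal.ofReal ((0 + ℓ x) ^ (n + 1) * h x)) (by fun_prop) (by fun_prop) (by fun_prop)
      (by
        intro x y
        by_cases hx : h x = 0
        · rw [hx, mul_zero, ENNReal.ofReal_zero, ENNReal.zero_rpow_of_pos (by norm_num), zero_mul]
          exact zero_le
        by_cases hy : h y = 0
        · rw [hy, mul_zero, ENNReal.ofReal_zero, ENNReal.zero_rpow_of_pos (by norm_num), mul_zero]
          exact zero_le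
        have hx1 := hp x hx
        have hy1 := hp y hy
        set z : F := (1 / 2 : ℝ) • (x + y) with hz
        have hzeq : (1 - (1 / 2 : ℝ)) • x + (1 / 2 : ℝ) • y = z := by
          rw [hz, smul_add]; norm_num
        rw [hzeq]
        have hlz : ℓ z = (ℓ x + ℓ y) / 2 := by
          rw [hz, map_smul, map_add, smul_eq_mul]; ring
        have hX : 0 ≤ (a + ℓ x) ^ (n + 1) * h x := hnn a (by linarith) x
        have hY : 0 ≤ (-a + ℓ y) ^ (n + 1) * h y := hnn (-a) (by linarith) y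
        rw [ENNReal.ofReal_rpow_of_nonneg hX (by norm_num),
          ENNReal.ofReal_rpow_of_nonneg hY (by norm_num),
          ← ENNReal.ofReal_mul (Real.rpow_nonneg hX _)]
        apply ENNReal.ofReal_le_ofReal
        have e1 : (1 - (1 / 2 : ℝ)) = 1 / 2 := by norm_num
        rw [e1, ← Real.mul_rpow hX hY, ← Real.sqrt_eq_rpow]
        apply Real.sqrt_le_iff.2
        have hz0 : 0 ≤ 0 + ℓ z := by rw [hlz]; linarith
        refine ⟨mul_nonneg (pow_nonneg hz0 _) (H.nn z), ?_⟩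
        have h1 : (a + ℓ x) * (-a + ℓ y) ≤ (0 + ℓ z) ^ 2 := by
          rw [hlz]
          nlinarith [sq_nonneg (a + ℓ x - (-a + ℓ y))]
        have h2 := H.mid x y
        have h3 : 0 ≤ (a + ℓ x) * (-a + ℓ y) := mul_nonneg (by linarith) (by linarith)
        calc (a + ℓ x) ^ (n + 1) * h x * ((-a + ℓ y) ^ (n + 1) * h y)
            = ((a + ℓ x) * (-a + ℓ y)) ^ (n + 1) * (h x * h y) := by rw [mul_pow]; ring
          _ ≤ ((0 + ℓ z) ^ 2) ^ (n + 1) * h z ^ 2 := by
              refine mul_le_mul (pow_le_pow_left₀ h3 h1 _) h2 (mul_nonneg (H.nn x) (H.nn y))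
                (by positivity)
          _ = ((0 + ℓ z) ^ (n + 1) * h z) ^ 2 := by ring)
    rw [hlint a (by linarith), hlint (-a) (by linarith), hlint 0 (by linarith)] at hPL
    have hA : 0 ≤ ∫ x, (a + ℓ x) ^ (n + 1) * h x ∂ν := integral_nonneg (hnn a (by linarith))
    have hB : 0 ≤ ∫ x, (-a + ℓ x) ^ (n + 1) * h x ∂ν := integral_nonneg (hnn (-a) (by linarith))
    have hC : 0 ≤ ∫ x, (0 + ℓ x) ^ (n + 1) * h x ∂ν := integral_nonneg (hnn 0 (by linarith))
    rw [ENNReal.ofReal_rpow_of_nonneg hA (by norm_num),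
      ENNReal.ofReal_rpow_of_nonneg hB (by norm_num),
      ← ENNReal.ofReal_mul (Real.rpow_nonneg hA _), ENNReal.ofReal_le_ofReal_iff hC] at hPL
    have e1 : (1 - (1 / 2 : ℝ)) = 1 / 2 := by norm_num
    rw [e1, ← Real.mul_rpow hA hB, ← Real.sqrt_eq_rpow] at hPL
    have h4 := (Real.sqrt_le_left hC).1 hPL
    rw [hexp, hexp] at h4
    refine h4.trans (le_of_eq ?_)
    congr 1
    rw [hc]
    simp [hφ]) hn
  have c0 : c 0 = φ (n + 1) := by rw [hc]; simp
  have c1 : c 1 = (n + 1) * φ n := by rw [hc]; simp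
  have c2 : c 2 = (n + 1) * n / 2 * φ (n - 1) := by
    rw [hc]
    simp only
    rw [Nat.cast_choose_two]
    have : n + 1 - 2 = n - 1 := by omega
    rw [this]
    push_cast
    ring
  rw [c0, c1, c2] at key
  have hn1 : (0 : ℝ) < n + 1 := by positivity
  have h5 : (n + 1) * (n * φ (n + 1) * φ (n - 1)) ≤ (n + 1) * ((n + 1) * φ n ^ 2) := by
    calc (n + 1) * (n * φ (n + 1) * φ (n - 1)) = 2 * φ (n + 1) * ((n + 1) * n / 2 * φ (n - 1)) := by
          ring
      _ ≤ ((n + 1) * φ n) ^ 2 := key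
      _ = (n + 1) * ((n + 1) * φ n ^ 2) := by ring
  exact le_of_mul_le_mul_left h5 hn1

/-- **moments of a positive linear functional** -/
theorem mom (H : Wg h) (ℓ : F →L[ℝ] ℝ) (hp : ∀ x, h x ≠ 0 → 0 < ℓ x) (n : ℕ) (hn : 1 ≤ n) :
    n * (∫ x, ℓ x ^ (n + 1) * h x ∂ν) * (∫ x, ℓ x ^ (n - 1) * h x ∂ν) ≤
      (n + 1) * (∫ x, ℓ x ^ n * h x ∂ν) ^ 2 := by
  set hh : ℕ → F → ℝ := fun j => {x | 1 / ((j : ℝ) + 1) ≤ ℓ x}.indicator h with hhd
  have hWg : ∀ j, Wg (hh j) := by
    intro j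
    obtain ⟨M, hM⟩ := H.bd
    obtain ⟨R, hR⟩ := H.sp
    have hms : MeasurableSet {x | 1 / ((j : ℝ) + 1) ≤ ℓ x} :=
      measurableSet_le measurable_const ℓ.continuous.measurable
    refine ⟨fun x => indicator_nonneg (fun y _ => H.nn y) x, H.meas.indicator hms,
      ⟨M, fun x => (indicator_le_self' (fun _ _ => H.nn _) x).trans (hM x)⟩, ⟨R, fun x hx => ?_⟩, ?_⟩
    · exact (indicator_apply_eq_zero.2 fun _ => hR x hx)
    · intro x y
      by_cases hx : x ∈ {x | 1 / ((j : ℝ) + 1) ≤ ℓ x}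
      · by_cases hy : y ∈ {x | 1 / ((j : ℝ) + 1) ≤ ℓ x}
        · have hz : (1 / 2 : ℝ) • (x + y) ∈ {x | 1 / ((j : ℝ) + 1) ≤ ℓ x} := by
            simp only [mem_ofPred_eq] at hx hy ⊢
            rw [map_smul, map_add, smul_eq_mul]
            linarith
          rw [hhd]
          simp only
          rw [indicator_of_mem hx, indicator_of_mem hy, indicator_of_mem hz]
          exact H.mid x y
        · rw [hhd]
          simp only
          rw [indicator_of_notMem hy, mul_zero]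
          positivity
      · rw [hhd]
        simp only
        rw [indicator_of_notMem hx, zero_mul]
        positivity
  have hj : ∀ j : ℕ, n * (∫ x, ℓ x ^ (n + 1) * hh j x ∂ν) * (∫ x, ℓ x ^ (n - 1) * hh j x ∂ν) ≤
      (n + 1) * (∫ x, ℓ x ^ n * hh j x ∂ν) ^ 2 := fun j =>
    mom_pos ν (hWg j) ℓ (1 / (j + 1)) (by positivity) (fun x hx => by
      by_contra hcon
      exact hx (indicator_of_notMem (show x ∉ {x | 1 / ((j : ℝ) + 1) ≤ ℓ x} from hcon) _)) n hn
  have hlim : ∀ p : ℕ, Tendsto (fun j => ∫ x, ℓ x ^ p * hh j x ∂ν) atTop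
      (𝓝 (∫ x, ℓ x ^ p * h x ∂ν)) := by
    intro p
    refine tendsto_integral_of_dominated_convergence (fun x => |ℓ x| ^ p * h x) (fun j => ?_)
      (H.intg ν (by fun_prop)) (fun j => Eventually.of_forall fun x => ?_)
      (Eventually.of_forall fun x => ?_)
    · exact ((hWg j).intg ν (by fun_prop)).aestronglyMeasurable
    · rw [norm_mul, norm_pow, Real.norm_eq_abs, Real.norm_of_nonneg ((hWg j).nn x)]
      exact mul_le_mul_of_nonneg_left (indicator_le_self' (fun _ _ => H.nn _) x) (by positivity)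
    · by_cases hx : h x = 0
      · have : ∀ j, hh j x = 0 := fun j => indicator_apply_eq_zero.2 fun _ => hx
        simp only [this, hx, mul_zero]
        exact tendsto_const_nhds
      · have hpx := hp x hx
        have h1 : ∀ᶠ j : ℕ in atTop, 1 / ((j : ℝ) + 1) < ℓ x :=
          (tendsto_one_div_add_atTop_nhds_zero_nat (𝕜 := ℝ)).eventually (eventually_lt_nhds hpx)
        refine tendsto_const_nhds.congr' ?_
        filter_upwards [h1] with j hj1
        rw [hhd]
        simp only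
        rw [indicator_of_mem (show x ∈ {x | 1 / ((j : ℝ) + 1) ≤ ℓ x} from hj1.le)]
  exact le_of_tendsto_of_tendsto ((((hlim (n + 1)).const_mul _).mul (hlim (n - 1))))
    (((hlim n).pow 2).const_mul _) (Eventually.of_forall hj)

end Pool.Agent.Q188.NC
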