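import Pool.Agent.Q188.NC.Rep
import Pool.Agent.Q188.NC.Mom
import Pool.Agent.Q188.NC.ES
import Pool.Agent.W695.KH.Defs

/-!
# The law of the radii
-/

set_option autoImplicit false

namespace Pool.Agent.Q188.NC

open MeasureTheory Set Filter Topology
open scoped ENNReal
open Pool.Agent.W695.KH (EV VV)

variable {b k : ℕ} {d : Fin b → ℕ}
variable {B : ∀ i, Set (EuclideanSpace ℝ (Fin (d i)))} {Ω : Set (Ee d k)}

theorem vol_Om (H : NCm B Ω) {e : Yy d} (he : ∀ i, gauge (B i) (e i) = 1) :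
    volume Ω = (∏ i, volume (B i)) * al0 Ω e univ := by
  have : ∀ i, IsProbabilityMeasure (bh (B i)) := fun i => (H.dB i).bh_prob
  have h1 := congrArg (fun μ : Measure (Ee d k) => μ univ) (restrict_eq H he)
  simp only [Measure.restrict_apply_univ, Measure.smul_apply, smul_eq_mul] at h1
  rw [h1, Measure.map_apply (PhE_meas H.dB) MeasurableSet.univ, preimage_univ, ← univ_prod_univ,
    Measure.prod_prod, measure_univ (μ := Measure.pi fun i => bh (B i)), mul_one]

theorem prod_vol_ne (h : ∀ i, Dom (B i)) : (∏ i, volume (B i)) ≠ 0 :=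
  Finset.prod_ne_zero_iff.2 fun i _ => (h i).vol_pos.ne'

theorem prod_vol_top (h : ∀ i, Dom (B i)) : (∏ i, volume (B i)) ≠ ⊤ :=
  ENNReal.prod_ne_top fun i _ => (h i).bdd.measure_lt_top.ne

theorem al0_ne (H : NCm B Ω) {e : Yy d} (he : ∀ i, gauge (B i) (e i) = 1) : al0 Ω e univ ≠ 0 := by
  intro h0
  have h1 := vol_Om H he
  rw [h0, mul_zero] at h1
  exact H.dΩ.vol_pos.ne' h1

theorem al0_top (H : NCm B Ω) {e : Yy d} (he : ∀ i, gauge (B i) (e i) = 1) : al0 Ω e univ ≠ ⊤ := by
  intro h0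
  have h1 := vol_Om H he
  rw [h0, ENNReal.mul_top (prod_vol_ne H.dB)] at h1
  exact H.dΩ.bdd.measure_lt_top.ne h1

/-- the law of the radii and the last coordinates -/
noncomputable def al (Ω : Set (Ee d k)) (e : Yy d) : Measure (Aa b k) :=
  (al0 Ω e univ)⁻¹ • al0 Ω e

theorem al_prob (H : NCm B Ω) {e : Yy d} (he : ∀ i, gauge (B i) (e i) = 1) :
    IsProbabilityMeasure (al Ω e) :=
  ⟨by
    unfold al
    rw [Measure.smul_apply, smul_eq_mul, ENNReal.inv_mul_cancel (al0_ne H he) (al0_top H he)]⟩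

/-- **representation of the uniform measure** -/
theorem rep (H : NCm B Ω) {e : Yy d} (he : ∀ i, gauge (B i) (e i) = 1) (F : Ee d k → ℝ)
    (hF : Continuous F) :
    EV Ω F = ∫ z, F (PhE B z) ∂((al Ω e).prod (Measure.pi fun i => bh (B i))) := by
  have : ∀ i, IsProbabilityMeasure (bh (B i)) := fun i => (H.dB i).bh_prob
  have hf : IsFiniteMeasure (al0 Ω e) := ⟨lt_top_iff_ne_top.2 (al0_top H he)⟩
  unfold EV al
  rw [restrict_eq H he, integral_smul_measure, integral_map (PhE_meas H.dB).aemeasurable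
    hF.aestronglyMeasurable, vol_Om H he, Measure.prod_smul_left, integral_smul_measure,
    ENNReal.toReal_mul, ENNReal.toReal_inv, smul_eq_mul, smul_eq_mul]
  have h1 : (∏ i, volume (B i)).toReal ≠ 0 :=
    (ENNReal.toReal_pos (prod_vol_ne H.dB) (prod_vol_top H.dB)).ne'
  have h2 : (al0 Ω e univ).toReal ≠ 0 := (ENNReal.toReal_pos (al0_ne H he) (al0_top H he)).ne'
  field_simp

theorem ae_D0 (H : NCm B Ω) (e : Yy d) : ∀ᵐ a ∂(al Ω e), a ∈ D0 Ω e := by
  unfold al
  refine Measure.ae_smul_measure ?_ _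
  unfold al0
  exact ae_restrict_mem (D0_open H.dΩ e).measurableSet

/-- real density -/
noncomputable def dens (Ω : Set (Ee d k)) (e : Yy d) (a : Aa b k) : ℝ :=
  (D0 Ω e ∩ {a | ∀ i, 0 < a.1 i}).indicator (fun a => ∏ i, ((d i : ℝ) * a.1 i ^ (d i - 1))) a

theorem pos_open : MeasurableSet {a : Aa b k | ∀ i, 0 < a.1 i} := by
  rw [ofPred_forall]
  exact MeasurableSet.iInter fun i => measurableSet_lt measurable_const (by fun_prop)

theorem dens_meas (H : NCm B Ω) (e : Yy d) : Measurable (dens Ω e) :=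
  (Finset.measurable_prod _ fun i _ => by fun_prop).indicator
    ((D0_open H.dΩ e).measurableSet.inter pos_open)

theorem dens_nn (Ω : Set (Ee d k)) (e : Yy d) (a : Aa b k) : 0 ≤ dens Ω e a := by
  unfold dens
  refine indicator_nonneg (fun a ha => ?_) a
  exact Finset.prod_nonneg fun i _ => mul_nonneg (by positivity) (pow_nonneg (ha.2 i).le _)

theorem al0_dens (H : NCm B Ω) (e : Yy d) :
    al0 Ω e = (volume : Measure (Aa b k)).withDensity fun a => ENNReal.ofReal (dens Ω e a) := by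
  unfold al0
  rw [restrict_withDensity (D0_open H.dΩ e).measurableSet, ← withDensity_indicator
    (D0_open H.dΩ e).measurableSet]
  congr 1
  ext a
  unfold dens
  by_cases ha : a ∈ D0 Ω e
  · rw [indicator_of_mem ha]
    by_cases hp : ∀ i, 0 < a.1 i
    · rw [indicator_of_mem (show a ∈ D0 Ω e ∩ {a | ∀ i, 0 < a.1 i} from ⟨ha, hp⟩),
        ENNReal.ofReal_prod_of_nonneg fun i _ => mul_nonneg (by positivity) (pow_nonneg (hp i).le _)]
      unfold Wt
      refine Finset.prod_congr rfl fun i _ => ?_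
      unfold wt
      rw [indicator_of_mem (show a.1 i ∈ Ioi (0 : ℝ) from hp i)]
    · rw [indicator_of_notMem (fun h => hp h.2), ENNReal.ofReal_zero]
      push Not at hp
      obtain ⟨i, hi⟩ := hp
      unfold Wt
      refine Finset.prod_eq_zero (Finset.mem_univ i) ?_
      unfold wt
      rw [indicator_of_notMem (show a.1 i ∉ Ioi (0 : ℝ) from not_lt.2 hi)]
  · rw [indicator_of_notMem ha, indicator_of_notMem (fun h => ha h.1), ENNReal.ofReal_zero]

theorem int_al0 (H : NCm B Ω) (e : Yy d) (F : Aa b k → ℝ) :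
    ∫ a, F a ∂(al0 Ω e) = ∫ a, F a * dens Ω e a := by
  rw [al0_dens H e, integral_withDensity_eq_integral_toReal_smul
    ((dens_meas H e).ennreal_ofReal) (Eventually.of_forall fun a => ENNReal.ofReal_lt_top)]
  congr 1
  ext a
  rw [ENNReal.toReal_ofReal (dens_nn Ω e a), smul_eq_mul, mul_comm]

theorem int_al (e : Yy d) (F : Aa b k → ℝ) :
    ∫ a, F a ∂(al Ω e) = (al0 Ω e univ).toReal⁻¹ * ∫ a, F a ∂(al0 Ω e) := by
  unfold al
  rw [integral_smul_measure, ENNReal.toReal_inv, smul_eq_mul]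

theorem mass_al0 (H : NCm B Ω) {e : Yy d} (he : ∀ i, gauge (B i) (e i) = 1) :
    (al0 Ω e univ).toReal = ∫ a, dens Ω e a := by
  have hf : IsFiniteMeasure (al0 Ω e) := ⟨lt_top_iff_ne_top.2 (al0_top H he)⟩
  have := int_al0 H e (fun _ => 1)
  simp only [one_mul, integral_const, smul_eq_mul, mul_one] at this
  exact this

/-- density with one factor of one radius removed -/
noncomputable def dn (Ω : Set (Ee d k)) (e : Yy d) (i : Fin b) (a : Aa b k) : ℝ :=
  (D0 Ω e ∩ {a | ∀ i, 0 < a.1 i}).indicator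
    (fun a => (d i : ℝ) * ∏ j ∈ Finset.univ.erase i, ((d j : ℝ) * a.1 j ^ (d j - 1))) a

theorem dens_dn (Ω : Set (Ee d k)) (e : Yy d) (i : Fin b) (a : Aa b k) :
    dens Ω e a = a.1 i ^ (d i - 1) * dn Ω e i a := by
  unfold dens dn
  by_cases ha : a ∈ D0 Ω e ∩ {a | ∀ i, 0 < a.1 i}
  · rw [indicator_of_mem ha, indicator_of_mem ha, ← Finset.mul_prod_erase _ _ (Finset.mem_univ i)]
    ring
  · rw [indicator_of_notMem ha, indicator_of_notMem ha, mul_zero]

theorem dn_wg (H : NCm B Ω) {e : Yy d} (he : ∀ i, gauge (B i) (e i) = 1) (i : Fin b) :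
    Wg (dn Ω e i) := by
  have hne : ∀ i, e i ≠ 0 := by
    intro i h0
    have := he i
    rw [h0, gauge_zero] at this
    exact zero_ne_one this
  obtain ⟨R, hR⟩ := (D0_bdd H.dΩ hne).exists_norm_le
  have hR' : ∀ a ∈ D0 Ω e, ∀ j, |a.1 j| ≤ |R| := by
    intro a ha j
    have h1 : ‖a.1 j‖ ≤ ‖a‖ := (norm_le_pi_norm a.1 j).trans (norm_fst_le a)
    exact (h1.trans (hR a ha)).trans (le_abs_self R)
  refine ⟨fun a => ?_, ?_, ?_, ⟨R, fun x hx => ?_⟩, fun x y => ?_⟩
  · exact indicator_nonneg (fun a ha => mul_nonneg (by positivity) (Finset.prod_nonneg fun j _ =>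
      mul_nonneg (by positivity) (pow_nonneg (ha.2 j).le _))) a
  · refine Measurable.indicator ?_ ((D0_open H.dΩ e).measurableSet.inter pos_open)
    exact measurable_const.mul (Finset.measurable_prod _ fun i _ => by fun_prop)
  · refine ⟨(d i : ℝ) * ∏ j ∈ Finset.univ.erase i, ((d j : ℝ) * |R| ^ (d j - 1)), fun a => ?_⟩
    refine indicator_apply_le' (fun ha => ?_) (fun _ => ?_)
    · refine mul_le_mul_of_nonneg_left ?_ (by positivity)
      refine Finset.prod_le_prod (fun j _ => mul_nonneg (by positivity) (pow_nonneg (ha.2 j).le _))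
        fun j _ => ?_
      refine mul_le_mul_of_nonneg_left ?_ (by positivity)
      exact pow_le_pow_left₀ (ha.2 j).le ((le_abs_self _).trans (hR' a ha.1 j)) _
    · exact mul_nonneg (by positivity) (Finset.prod_nonneg fun j _ =>
        mul_nonneg (by positivity) (pow_nonneg (abs_nonneg R) _))
  · exact indicator_of_notMem (fun h => absurd (hR x h.1) (not_le.2 hx)) _
  · unfold dn
    by_cases hx : x ∈ D0 Ω e ∩ {a | ∀ i, 0 < a.1 i}
    · by_cases hy : y ∈ D0 Ω e ∩ {a | ∀ i, 0 < a.1 i}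
      · have hz : (1 / 2 : ℝ) • (x + y) ∈ D0 Ω e ∩ {a | ∀ i, 0 < a.1 i} := by
          refine ⟨?_, fun j => ?_⟩
          · rw [smul_add]
            exact D0_conv H.dΩ e hx.1 hy.1 (by norm_num) (by norm_num) (by norm_num)
          · have h1 := hx.2 j
            have h2 := hy.2 j
            show 0 < (1 / 2 : ℝ) * (x.1 j + y.1 j)
            linarith
        rw [indicator_of_mem hx, indicator_of_mem hy, indicator_of_mem hz]
        have h3 : (∏ j ∈ Finset.univ.erase i, ((d j : ℝ) * x.1 j ^ (d j - 1))) *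
            (∏ j ∈ Finset.univ.erase i, ((d j : ℝ) * y.1 j ^ (d j - 1))) ≤
            (∏ j ∈ Finset.univ.erase i,
              ((d j : ℝ) * ((1 / 2 : ℝ) • (x + y)).1 j ^ (d j - 1))) ^ 2 := by
          rw [← Finset.prod_mul_distrib, ← Finset.prod_pow]
          refine Finset.prod_le_prod (fun j _ => ?_) fun j _ => ?_
          · have h1 := hx.2 j
            have h2 := hy.2 j
            positivity
          · have h1 := hx.2 j
            have h2 := hy.2 j
            have e1 : ((1 / 2 : ℝ) • (x + y)).1 j = (x.1 j + y.1 j) / 2 := by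
              show (1 / 2 : ℝ) * (x.1 j + y.1 j) = _
              ring
            rw [e1]
            have h4 : x.1 j * y.1 j ≤ ((x.1 j + y.1 j) / 2) ^ 2 := by
              nlinarith [sq_nonneg (x.1 j - y.1 j)]
            calc (d j : ℝ) * x.1 j ^ (d j - 1) * ((d j : ℝ) * y.1 j ^ (d j - 1))
                = (d j : ℝ) ^ 2 * (x.1 j * y.1 j) ^ (d j - 1) := by rw [mul_pow]; ring
              _ ≤ (d j : ℝ) ^ 2 * (((x.1 j + y.1 j) / 2) ^ 2) ^ (d j - 1) := by
                  have : 0 ≤ x.1 j * y.1 j := (mul_pos h1 h2).le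
                  gcongr
              _ = ((d j : ℝ) * ((x.1 j + y.1 j) / 2) ^ (d j - 1)) ^ 2 := by
                  rw [mul_pow, ← pow_mul, ← pow_mul, mul_comm 2 (d j - 1)]
        calc _ = (d i : ℝ) ^ 2 * ((∏ j ∈ Finset.univ.erase i, ((d j : ℝ) * x.1 j ^ (d j - 1))) *
            (∏ j ∈ Finset.univ.erase i, ((d j : ℝ) * y.1 j ^ (d j - 1)))) := by ring
          _ ≤ (d i : ℝ) ^ 2 * (∏ j ∈ Finset.univ.erase i,
              ((d j : ℝ) * ((1 / 2 : ℝ) • (x + y)).1 j ^ (d j - 1))) ^ 2 := by gcongr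
          _ = _ := by ring
      · rw [indicator_of_notMem hy, mul_zero]
        positivity
    · rw [indicator_of_notMem hx, zero_mul]
      positivity

/-- **the radii are concentrated**: `Var R_i ≤ E R_i² / (d_i + 1)` -/
theorem radii (H : NCm B Ω) {e : Yy d} (he : ∀ i, gauge (B i) (e i) = 1) (i : Fin b) :
    (d i : ℝ) * ∫ a, a.1 i ^ 2 ∂(al Ω e) ≤ (d i + 1) * (∫ a, a.1 i ∂(al Ω e)) ^ 2 := by
  have hW := dn_wg H he i
  set ℓ : Aa b k →L[ℝ] ℝ := (ContinuousLinearMap.proj i).comp (ContinuousLinearMap.fst ℝ _ _) with hℓ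
  have hl : ∀ a, ℓ a = a.1 i := fun a => rfl
  have hH : (volume : Measure (Aa b k)).IsAddHaarMeasure := by
    exact Measure.prod.instIsAddHaarMeasure (volume : Measure (Fin b → ℝ))
      (volume : Measure (Fin k → ℝ))
  have hm := mom (volume : Measure (Aa b k)) hW ℓ (fun a ha => by
    by_contra hcon
    apply ha
    unfold dn
    exact indicator_of_notMem (fun h => hcon (h.2 i)) _) (d i) (H.pos i)
  simp only [hl] at hm
  have hd := H.pos i
  have e0 : ∫ a : Aa b k, a.1 i ^ (d i - 1) * dn Ω e i a = (al0 Ω e univ).toReal := by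
    rw [mass_al0 H he]
    congr 1
    ext a
    exact (dens_dn Ω e i a).symm
  have e1 : ∫ a : Aa b k, a.1 i ^ (d i) * dn Ω e i a = ∫ a, a.1 i ∂(al0 Ω e) := by
    rw [int_al0 H e]
    congr 1
    ext a
    rw [dens_dn Ω e i a]
    have : a.1 i ^ (d i) = a.1 i * a.1 i ^ (d i - 1) := by
      rw [← pow_succ', Nat.sub_add_cancel hd]
    rw [this]
    ring
  have e2 : ∫ a : Aa b k, a.1 i ^ (d i + 1) * dn Ω e i a = ∫ a, a.1 i ^ 2 ∂(al0 Ω e) := by
    rw [int_al0 H e]
    congr 1
    ext a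
    rw [dens_dn Ω e i a]
    have : a.1 i ^ (d i + 1) = a.1 i ^ 2 * a.1 i ^ (d i - 1) := by
      rw [← pow_add]; congr 1; omega
    rw [this]
    ring
  rw [e0, e1, e2] at hm
  rw [int_al, int_al]
  set m := (al0 Ω e univ).toReal with hmd
  have hm0 : 0 < m := ENNReal.toReal_pos (al0_ne H he) (al0_top H he)
  set X := ∫ a : Aa b k, a.1 i ^ 2 ∂(al0 Ω e)
  set Y := ∫ a : Aa b k, a.1 i ∂(al0 Ω e)
  have : (d i : ℝ) * (m⁻¹ * X) = (d i * X * m) * (m⁻¹) ^ 2 := by field_simp
  rw [this]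
  calc (d i * X * m) * (m⁻¹) ^ 2 ≤ ((d i + 1) * Y ^ 2) * (m⁻¹) ^ 2 := by
        refine mul_le_mul_of_nonneg_right ?_ (by positivity)
        exact hm
    _ = (d i + 1) * (m⁻¹ * Y) ^ 2 := by ring

end Pool.Agent.Q188.NC
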