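import Pool.Agent.Q188.NC.Cv

/-!
# The KLS inequality for norm compositions
-/

set_option autoImplicit false

namespace Pool.Agent.Q188.NC

open MeasureTheory Set Filter Topology
open scoped ENNReal InnerProductSpace
open Pool.Agent.W695.KH (EV VV)

variable {b k : ℕ} {d : Fin b → ℕ}
variable {B : ∀ i, Set (EuclideanSpace ℝ (Fin (d i)))} {Ω : Set (Ee d k)}

/-- the function in the coordinates -/
noncomputable def Gg (B : ∀ i, Set (EuclideanSpace ℝ (Fin (d i)))) (Ω : Set (Ee d k)) (e : Yy d)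
    (f : Ee d k → ℝ) : Aa b k × Yy d → ℝ :=
  (Prod.fst ⁻¹' D0 Ω e).indicator fun z => f (PhE B z)

theorem Gg_meas (H : NCm B Ω) (e : Yy d) {f : Ee d k → ℝ} (hf : Continuous f) :
    Measurable (Gg B Ω e f) :=
  (hf.measurable.comp (PhE_meas H.dB)).indicator (measurable_fst (D0_open H.dΩ e).measurableSet)

theorem Gg_of (e : Yy d) (f : Ee d k → ℝ) {a : Aa b k} (ha : a ∈ D0 Ω e) (Y : Yy d) :
    Gg B Ω e f (a, Y) = f (PhE B (a, Y)) := indicator_of_mem (show (a, Y) ∈ Prod.fst ⁻¹' D0 Ω e from ha) _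

theorem Gg_ae (H : NCm B Ω) {e : Yy d} (f : Ee d k → ℝ) (γ : Measure (Yy d)) [SFinite γ] :
    ∀ᵐ z ∂((al Ω e).prod γ), Gg B Ω e f z = f (PhE B z) := by
  filter_upwards [(Measure.quasiMeasurePreserving_fst (μ := al Ω e) (ν := γ)).ae (ae_D0 H e)] with z hz
  exact Gg_of e f hz z.2

theorem f_bd {f : Ee d k → ℝ} (hf : ContDiff ℝ 1 f) (hf' : ∀ x, ‖fderiv ℝ f x‖ ≤ 1) (x : Ee d k) :
    |f x| ≤ |f 0| + ‖x‖ := by
  have h1 := lip_of hf hf' x 0
  rw [sub_zero, one_mul] at h1
  have h2 : |f x| ≤ |f x - f 0| + |f 0| := by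
    have := abs_add_le (f x - f 0) (f 0)
    rwa [sub_add_cancel] at this
  linarith

theorem Gg_bd (H : NCm B Ω) {e : Yy d} (he : ∀ i, gauge (B i) (e i) = 1) {f : Ee d k → ℝ}
    (hf : ContDiff ℝ 1 f) (hf' : ∀ x, ‖fderiv ℝ f x‖ ≤ 1) :
    ∃ M : ℝ, ∀ z, |Gg B Ω e f z| ≤ M := by
  obtain ⟨C, hC0, hC⟩ := PhE_bd (k := k) H.dB
  obtain ⟨ρ, hρ0, hρ⟩ := al_bd H he
  refine ⟨|f 0| + C * ρ, fun z => ?_⟩
  by_cases hz : z.1 ∈ D0 Ω e
  · rw [show z = (z.1, z.2) from rfl, Gg_of e f hz]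
    refine (f_bd hf hf' _).trans ?_
    have h1 := hC z.1 z.2
    have h2 := hρ _ hz
    have h3 : C * ‖z.1‖ ≤ C * ρ := by gcongr
    linarith
  · rw [show Gg B Ω e f z = 0 from
      indicator_of_notMem (show z ∉ Prod.fst ⁻¹' D0 Ω e from hz) _, abs_zero]
    positivity

/-- the variance in coordinates -/
theorem VV_eq (H : NCm B Ω) {e : Yy d} (he : ∀ i, gauge (B i) (e i) = 1) {f : Ee d k → ℝ}
    (hf : ContDiff ℝ 1 f) (hf' : ∀ x, ‖fderiv ℝ f x‖ ≤ 1) :
    VV Ω f = ∫ z, (Gg B Ω e f z - ∫ w, Gg B Ω e f w ∂((al Ω e).prod (Measure.pi fun i => bh (B i)))) ^ 2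
      ∂((al Ω e).prod (Measure.pi fun i => bh (B i))) := by
  have := al_prob H he
  have : ∀ i, IsProbabilityMeasure (bh (B i)) := fun i => (H.dB i).bh_prob
  obtain ⟨M, hM⟩ := Gg_bd H he hf hf'
  have hm := Gg_meas H e hf.continuous
  have hae := Gg_ae H (e := e) f (Measure.pi fun i => bh (B i))
  have i1 : Integrable (Gg B Ω e f) ((al Ω e).prod (Measure.pi fun i => bh (B i))) := int_bdd hm hM
  have i2 : Integrable (fun z => Gg B Ω e f z ^ 2) ((al Ω e).prod (Measure.pi fun i => bh (B i))) :=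
    int_bdd (hm.pow_const 2) (M := M ^ 2) fun z => by
      rw [abs_of_nonneg (sq_nonneg _), ← sq_abs]
      exact pow_le_pow_left₀ (abs_nonneg _) (hM z) 2
  have e1 := integral_congr_ae hae
  have e2 : ∫ z, Gg B Ω e f z ^ 2 ∂((al Ω e).prod (Measure.pi fun i => bh (B i))) =
      ∫ z, f (PhE B z) ^ 2 ∂((al Ω e).prod (Measure.pi fun i => bh (B i))) :=
    integral_congr_ae (hae.mono fun z hz => by
      show Gg B Ω e f z ^ 2 = f (PhE B z) ^ 2
      rw [hz])
  rw [var_eq i1 i2, e1, e2]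
  unfold VV
  rw [rep H he f hf.continuous, rep H he (fun x => f x ^ 2) (hf.continuous.pow 2), sub_self]
  ring

/-- contribution of the directions -/
theorem part_one (H : NCm B Ω) {e : Yy d} (he : ∀ i, gauge (B i) (e i) = 1) {K : Fin b → ℝ}
    (hK0 : ∀ i, 0 ≤ K i) (hK : ∀ i, KLS (K i) (B i)) {s : ℝ}
    (hs : ∀ θ : Ee d k, EV Ω (fun x => ⟪θ, x⟫_ℝ ^ 2) ≤ s * ‖θ‖ ^ 2) {f : Ee d k → ℝ}
    (hf : ContDiff ℝ 1 f) (hf' : ∀ x, ‖fderiv ℝ f x‖ ≤ 1) :
    ∫ a, ∫ Y, (Gg B Ω e f (a, Y) - ∫ Y', Gg B Ω e f (a, Y') ∂(Measure.pi fun i => bh (B i))) ^ 2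
      ∂(Measure.pi fun i => bh (B i)) ∂(al Ω e) ≤ s * ∑ i, (2 * K i + 1) := by
  have := al_prob H he
  have : ∀ i, IsProbabilityMeasure (bh (B i)) := fun i => (H.dB i).bh_prob
  obtain ⟨M, hM⟩ := Gg_bd H he hf hf'
  have hm := Gg_meas H e hf.continuous
  set ρ : Fin b → ℝ := fun i => ∫ a, a.1 i ^ 2 ∂(al Ω e) with hρ
  have hρ0 : ∀ i, 0 < ρ i := fun i => rho_pos H he i
  set S : Fin b → ℝ := fun i => (d i : ℝ) / (d i + 2) * (s / ρ i) with hS
  have hSi : ∀ i (u : EuclideanSpace ℝ (Fin (d i))),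
      EV (B i) (fun x => ⟪u, x⟫_ℝ ^ 2) ≤ S i * ‖u‖ ^ 2 := by
    intro i u
    rw [pp_mom (H.pos i) (H.dB i), hS]
    simp only
    rw [mul_assoc]
    exact mul_le_mul_of_nonneg_left (cov_block H he hs i u) (by positivity)
  set cI : Fin b → ℝ := fun i =>
    2 * (K i * S i) + 2 * (2 / (((d i : ℝ) + 1) * (d i + 2)) * qq (B i)) with hcI
  have hpt : ∀ᵐ a ∂(al Ω e),
      ∫ Y, (Gg B Ω e f (a, Y) - ∫ Y', Gg B Ω e f (a, Y') ∂(Measure.pi fun i => bh (B i))) ^ 2
        ∂(Measure.pi fun i => bh (B i)) ≤ ∑ i, a.1 i ^ 2 * cI i := by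
    filter_upwards [ae_D0 H e, al_pos Ω e] with a ha hp
    refine es (fun i => bh (B i)) (fun Y => Gg B Ω e f (a, Y)) (by fun_prop) M (fun Y => hM _)
      (fun i => a.1 i ^ 2 * cI i) fun i x => ?_
    set w0 := PhE B (a, Function.update x i 0) with hw0
    set F : EuclideanSpace ℝ (Fin (d i)) → ℝ := fun y => f (w0 + a.1 i • incL d k i y) with hF
    have h1 : ∀ t, Gg B Ω e f (a, Function.update x i t) = F ((gauge (B i) t)⁻¹ • t) := by
      intro t
      rw [Gg_of e f ha, PhE_update]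
    simp only [h1]
    have hda : ∀ y, HasFDerivAt (fun y => w0 + a.1 i • incL d k i y)
        (a.1 i • (incL d k i).toContinuousLinearMap) y := fun y =>
      (((incL d k i).toContinuousLinearMap.hasFDerivAt).const_smul (a.1 i)).const_add w0
    have hFc : ContDiff ℝ 1 F :=
      hf.comp (contDiff_const.add ((incL d k i).contDiff.const_smul (a.1 i)))
    refine blk_var (H.pos i) (H.dB i) (hK i) (hSi i) hFc (hp i) fun y => ?_
    have h2 : HasFDerivAt F ((fderiv ℝ f (w0 + a.1 i • incL d k i y)).comp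
        (a.1 i • (incL d k i).toContinuousLinearMap)) y :=
      ((hf.differentiable (by norm_num)).differentiableAt.hasFDerivAt).comp y (hda y)
    rw [h2.fderiv]
    refine (ContinuousLinearMap.opNorm_comp_le _ _).trans ?_
    have h3 : ‖a.1 i • (incL d k i).toContinuousLinearMap‖ ≤ a.1 i := by
      rw [norm_smul, Real.norm_eq_abs, abs_of_pos (hp i)]
      have := (incL d k i).norm_toContinuousLinearMap_le
      nlinarith [hp i]
    have h4 := hf' (w0 + a.1 i • incL d k i y)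
    have h5 := norm_nonneg (a.1 i • (incL d k i).toContinuousLinearMap)
    nlinarith [hp i, norm_nonneg (fderiv ℝ f (w0 + a.1 i • incL d k i y))]
  have hint : ∀ i, Integrable (fun a : Aa b k => a.1 i ^ 2 * cI i) (al Ω e) := fun i =>
    (al_int H he (φ := fun a : Aa b k => a.1 i ^ 2)
      (((continuous_apply i).comp continuous_fst).pow 2)).mul_const _
  calc _ ≤ ∫ a, ∑ i, a.1 i ^ 2 * cI i ∂(al Ω e) :=
        integral_mono_of_nonneg (Eventually.of_forall fun a => integral_nonneg fun Y => sq_nonneg _)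
          (integrable_finsetSum _ fun i _ => hint i) hpt
    _ = ∑ i, ρ i * cI i := by
        rw [integral_finsetSum _ fun i _ => hint i]
        refine Finset.sum_congr rfl fun i _ => ?_
        rw [integral_mul_const]
    _ ≤ ∑ i, s * (2 * K i + 1) := by
        refine Finset.sum_le_sum fun i _ => ?_
        have hd : (1 : ℝ) ≤ d i := by exact_mod_cast H.pos i
        have hq := cov_q H he hs i
        have hq0 := qq_nn (B i)
        have hs0 : 0 ≤ s := by
          have : 0 ≤ (d i : ℝ) * s := (mul_nonneg hq0 (hρ0 i).le).trans hq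
          nlinarith
        have e1 : ρ i * cI i = 2 * K i * (d i / (d i + 2) * s) +
            4 / (((d i : ℝ) + 1) * (d i + 2)) * (qq (B i) * ρ i) := by
          have := (hρ0 i).ne'
          rw [hcI, hS]
          simp only
          field_simp
          ring
        rw [e1]
        have h1 : (d i : ℝ) / (d i + 2) * s ≤ s := by
          have : (d i : ℝ) / (d i + 2) ≤ 1 := by
            rw [div_le_one (by positivity)]; linarith
          nlinarith
        have h2 : 4 / (((d i : ℝ) + 1) * (d i + 2)) * (qq (B i) * ρ i) ≤ s := by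
          calc 4 / (((d i : ℝ) + 1) * (d i + 2)) * (qq (B i) * ρ i)
              ≤ 4 / (((d i : ℝ) + 1) * (d i + 2)) * (d i * s) :=
                mul_le_mul_of_nonneg_left hq (by positivity)
            _ = (4 * d i) / (((d i : ℝ) + 1) * (d i + 2)) * s := by ring
            _ ≤ 1 * s := by
                refine mul_le_mul_of_nonneg_right ?_ hs0
                rw [div_le_one (by positivity)]
                nlinarith
            _ = s := one_mul s
        have h3 : 2 * K i * (d i / (d i + 2) * s) ≤ 2 * K i * s :=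
          mul_le_mul_of_nonneg_left h1 (by have := hK0 i; positivity)
        linarith
    _ = s * ∑ i, (2 * K i + 1) := by rw [Finset.mul_sum]

end Pool.Agent.Q188.NC
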