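import Pool.Agent.Q188.NC.Hyp
import Pool.Agent.Q188.SB.Fin
import Pool.Agent.Y506.KS.Ph
import Pool.Agent.Y506.KS.Bq

/-!
# Classes with the KLS inequality
-/

set_option autoImplicit false

namespace Pool.Agent.Q188.NC

open MeasureTheory Set Filter Topology
open scoped ENNReal InnerProductSpace Pointwise
open Pool.Agent.W695.KH

theorem kls_mono {κ : Type} [Fintype κ] [Nonempty κ] {K K' : ℝ} {Ω : Set (EuclideanSpace ℝ κ)}
    (hop : IsOpen Ω) (hb : Bornology.IsBounded Ω) (h0 : (0 : EuclideanSpace ℝ κ) ∈ Ω)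
    (h : KLS K Ω) (hKK : K ≤ K') : KLS K' Ω := by
  intro s hs f hf hf'
  obtain ⟨a, ha, -⟩ := Pool.Agent.W932.KH.q_max (Ω := Ω) hop hb
  have h1 := Pool.Agent.W932.KH.q_pos hop hb h0 a ha
  have h2 := hs a
  rw [ha] at h2
  have hs0 : 0 ≤ s := by linarith
  exact (h s hs f hf hf').trans (mul_le_mul_of_nonneg_right hKK hs0)

theorem kls_of_PoK {κ : Type} [Fintype κ] [Nonempty κ] {K : ℝ} (hK : 0 ≤ K) {Ω : Set (EuclideanSpace ℝ κ)}
    (hop : IsOpen Ω) (hb : Bornology.IsBounded Ω) (h0 : (0 : EuclideanSpace ℝ κ) ∈ Ω)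
    (h : Pool.Agent.Y506.KS.PoK Ω K) : KLS K Ω := by
  intro s hs f hf hf'
  obtain ⟨a, ha, -⟩ := Pool.Agent.W932.KH.q_max (Ω := Ω) hop hb
  have h1 := Pool.Agent.W932.KH.q_pos hop hb h0 a ha
  have h2 := hs a
  rw [ha] at h2
  have hs0 : 0 < s := by linarith
  have hfin : volume Ω < ⊤ := hb.measure_lt_top
  have hvol : 0 < (volume Ω).toReal :=
    ENNReal.toReal_pos (hop.measure_pos volume ⟨0, h0⟩).ne' hfin.ne
  have h3 : EV Ω (fun x => ‖fderiv ℝ f x‖ ^ 2) ≤ 1 := by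
    unfold EV
    rw [div_le_one hvol]
    have h4 := norm_setIntegral_le_of_norm_le_const (μ := volume) (s := Ω)
      (f := fun x => ‖fderiv ℝ f x‖ ^ 2) (C := 1) hfin (fun x _ => by
        rw [Real.norm_eq_abs, abs_of_nonneg (sq_nonneg _)]
        exact pow_le_one₀ (norm_nonneg _) (hf' x))
    rw [one_mul] at h4
    exact (le_abs_self _).trans h4
  calc VV Ω f ≤ K * s * EV Ω (fun x => ‖fderiv ℝ f x‖ ^ 2) := h s hs0 hs f hf
    _ ≤ K * s * 1 := mul_le_mul_of_nonneg_left h3 (by positivity)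
    _ = K * s := mul_one _

theorem kls_of_bd {κ : Type} [Fintype κ] [Nonempty κ] {D : Set (EuclideanSpace ℝ κ)}
    {h : EuclideanSpace ℝ κ → ℝ} {c L v : ℝ} (H : Pool.Agent.Q188.SB.Bd D h c L v) :
    KLS (32 * L / (c * v)) D := by
  intro s hs f hf hf'
  have hn : (0:ℝ) < Fintype.card κ := by exact_mod_cast Fintype.card_pos
  have hL := H.Lpos
  have hv := H.vpos
  have hc := H.cpos
  have h1 := Pool.Agent.Q188.SB.tr_lower D H.comp H.pos v hv H.vol s (fun θ hθ => by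
    have h2 := hs θ
    rw [hθ] at h2
    unfold VV
    have e1 : (fun x : Eu κ => ⟪x, θ⟫_ℝ ^ 2) = fun x => ⟪θ, x⟫_ℝ ^ 2 := by
      ext x; rw [real_inner_comm]
    rw [e1]
    nlinarith [sq_nonneg (EV D fun x => ⟪x, θ⟫_ℝ)])
  refine (H.lip f hf hf').trans ?_
  rw [div_le_iff₀ (by positivity)] at h1 ⊢
  have e : 32 * L / (c * v) * s * (c * Fintype.card κ) = 4 * L * (s * (8 * Fintype.card κ)) / v := by
    field_simp
    ring
  rw [e, le_div_iff₀ hv]
  calc 4 * L * v * v = 4 * L * v ^ 2 := by ring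
    _ ≤ 4 * L * (s * (8 * Fintype.card κ)) := by gcongr

theorem kls_closure {κ : Type} [Fintype κ] {K : ℝ} {Ω : Set (EuclideanSpace ℝ κ)}
    (hop : IsOpen Ω) (hc : Convex ℝ Ω) (h : KLS K (closure Ω)) : KLS K Ω := by
  have hae := Pool.Agent.W932.KH.closure_ae (κ := κ) hop hc
  have e : ∀ g : EuclideanSpace ℝ κ → ℝ, EV (closure Ω) g = EV Ω g := by
    intro g
    unfold EV
    rw [setIntegral_congr_set hae, measure_congr hae]
  intro s hs f hf hf'
  have := h s (fun θ => by rw [e]; exact hs θ) f hf hf'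
  unfold VV at this ⊢
  rwa [e, e] at this

/-- sections of products of low dimensional symmetric convex sets -/
theorem kls_sop {n : ℕ} (hn : 1 ≤ n) {Ω : Set (EuclideanSpace ℝ (Fin n))} (hΩ : Dom Ω) (m q N : ℕ)
    (d : Fin N → ℕ) (Q : ∀ i, EuclideanSpace ℝ (Fin n) →ₗ[ℝ] EuclideanSpace ℝ (Fin (d i)))
    (D : ∀ i, Set (EuclideanSpace ℝ (Fin (d i)))) (hd : ∀ i, d i ≤ m) (hsum : ∑ i, d i ≤ n + q)
    (hD : ∀ i, Dom (D i)) (hrep : Ω = {x | ∀ i, Q i x ∈ D i}) :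
    KLS (Pool.Agent.Y506.KS.CB m q) Ω := by
  have hne' : Nonempty (Fin n) := ⟨⟨0, hn⟩⟩
  have hSB : ∀ i, Pool.Agent.Y506.KS.SB (D i) := fun i =>
    ⟨(hD i).op.measurableSet, (hD i).conv, (hD i).bdd, (hD i).symm, by
      rw [(hD i).op.interior_eq]
      exact (hD i).ne⟩
  let Q' : ∀ i, EuclideanSpace ℝ (Fin n) →L[ℝ] EuclideanSpace ℝ (Fin (d i)) := fun i =>
    LinearMap.toContinuousLinearMap (Q i)
  have hKK : Ω = Pool.Agent.Y506.KS.KK Q' D := by
    rw [hrep]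
    rfl
  have hQ : ∀ x, (∀ i, Q' i x = 0) → x = 0 := by
    intro x hx
    by_contra hne
    obtain ⟨R, hR⟩ := hΩ.bdd.exists_norm_le
    have hxn : 0 < ‖x‖ := norm_pos_iff.2 hne
    have hmem : ((|R| + 1) / ‖x‖) • x ∈ Ω := by
      rw [hKK]
      intro i
      rw [map_smul, hx i, smul_zero]
      exact (hD i).zero_mem
    have h1 := hR _ hmem
    rw [norm_smul, Real.norm_of_nonneg (by positivity), div_mul_cancel₀ _ hxn.ne'] at h1
    linarith [le_abs_self R]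
  have hP : Pool.Agent.Y506.KS.PoK Ω (Pool.Agent.Y506.KS.CB m q) := by
    rw [hKK]
    exact Pool.Agent.Y506.KS.KK_PoK hQ hSB m hd q (by simpa using hsum)
  exact kls_of_PoK (Pool.Agent.Y506.KS.CB_pos m q).le hΩ.op hΩ.bdd hΩ.zero_mem hP

/-- sections of products of generalised `ℓ_p` balls, `p ≥ 2` -/
theorem kls_pow {n : ℕ} (hn : 1 ≤ n) (q N : ℕ) (m : Fin N → ℕ) (p : ∀ i, Fin (m i) → ℝ)
    (ell : ∀ i, Fin (m i) → (EuclideanSpace ℝ (Fin n) →ₗ[ℝ] ℝ)) (hm : ∀ i, 1 ≤ m i)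
    (hsum : ∑ i, m i ≤ n + q) (hp : ∀ i j, 2 ≤ p i j) {Ω : Set (EuclideanSpace ℝ (Fin n))}
    (hΩ : Dom Ω) (hrep : Ω = {x | ∀ i, ∑ j, |ell i j x| ^ p i j < 1}) :
    KLS (Pool.Agent.Y506.KS.CP q) Ω := by
  have hne' : Nonempty (Fin n) := ⟨⟨0, hn⟩⟩
  let L : ∀ i, Fin (m i) → (EuclideanSpace ℝ (Fin n) →L[ℝ] ℝ) := fun i j =>
    LinearMap.toContinuousLinearMap (ell i j)
  have hmem : ∀ x, x ∈ Ω ↔ ∀ i, Pool.Agent.Y506.KS.PS (p i) (L i) x < 1 := fun x => by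
    rw [hrep]
    rfl
  have hker : ∀ x, (∀ i j, L i j x = 0) → x = 0 := by
    intro x hx
    refine Pool.Agent.Y506.KS.ker_triv hΩ.bdd fun c => ?_
    rw [hmem]
    intro i
    rw [Pool.Agent.Y506.KS.PS_zero (hp i) (L i) (fun j => by rw [map_smul, hx i j, smul_zero])]
    exact zero_lt_one
  have hP : Pool.Agent.Y506.KS.PoK Ω (Pool.Agent.Y506.KS.CP q) := by
    have h1 := Pool.Agent.Y506.KS.pow_PoK Pool.Agent.Y506.KS.ij_open
      (fun i => Nat.lt_of_lt_of_le Nat.zero_lt_one (hm i)) hp hker q (by simpa using hsum)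
    have e : Ω = {x | ∀ i, (fun t : ℝ => if t < 1 then (1 : ℝ) else 0)
        (∑ j, |L i j x| ^ p i j) = 1} := by
      ext x
      rw [hmem]
      refine forall_congr' fun i => ?_
      unfold Pool.Agent.Y506.KS.PS
      by_cases h3 : ∑ j, |L i j x| ^ p i j < 1
      · simp [h3]
      · simp [h3]
    rw [e]
    exact h1
  exact kls_of_PoK (Pool.Agent.Y506.KS.CP_pos q).le hΩ.op hΩ.bdd hΩ.zero_mem hP

/-- intersections of balls -/
theorem kls_ball {n : ℕ} (hn : 1 ≤ n) {Ω : Set (EuclideanSpace ℝ (Fin n))} (hΩ : Dom Ω) (v : ℝ)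
    (hv : 0 < v) (hvol : volume Ω = volume (Metric.closedBall (0 : EuclideanSpace ℝ (Fin n)) v))
    (R : ℝ) (hR : 0 < R) (Z : Set (EuclideanSpace ℝ (Fin n)))
    (hZ : closure Ω = ⋂ z ∈ Z, Metric.closedBall z R) : KLS (32 * R / v) Ω := by
  have hne' : Nonempty (Fin n) := ⟨⟨0, hn⟩⟩
  have hae := measure_congr (Pool.Agent.W932.KH.closure_ae (κ := Fin n) hΩ.op hΩ.conv)
  have hcomp : IsCompact (closure Ω) :=
    Metric.isCompact_of_isClosed_isBounded isClosed_closure hΩ.bdd.closure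
  have H := Pool.Agent.Q188.SB.bd_ball (closure Ω) hcomp hΩ.conv.closure
    (hΩ.vol_pos.trans_le (measure_mono subset_closure)) R hR Z hZ v hv (hae.trans hvol)
  have h1 := kls_closure hΩ.op hΩ.conv (kls_of_bd H)
  rwa [one_mul] at h1

/-- sublevel sets of functions with pinched Hessian -/
theorem kls_level {n : ℕ} (hn : 1 ≤ n) {Ω : Set (EuclideanSpace ℝ (Fin n))} (hΩ : Dom Ω) (v : ℝ)
    (hv : 0 < v) (hvol : volume Ω = volume (Metric.closedBall (0 : EuclideanSpace ℝ (Fin n)) v))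
    {V : EuclideanSpace ℝ (Fin n) → ℝ} {g : EuclideanSpace ℝ (Fin n) → EuclideanSpace ℝ (Fin n)}
    {c Λ : ℝ} (H : Pool.Agent.Q188.SB.Cond V g c Λ) (hV : closure Ω = {x | V x ≤ 0}) :
    KLS (32 * Λ / c) Ω := by
  have hne' : Nonempty (Fin n) := ⟨⟨0, hn⟩⟩
  have hae := measure_congr (Pool.Agent.W932.KH.closure_ae (κ := Fin n) hΩ.op hΩ.conv)
  have hpos : 0 < volume {x | V x ≤ 0} := by
    rw [← hV]
    exact hΩ.vol_pos.trans_le (measure_mono subset_closure)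
  have H1 := Pool.Agent.Q188.SB.bd_level H hpos v hv (by rw [← hV]; exact hae.trans hvol)
  have h1 := kls_of_bd H1
  rw [← hV] at h1
  have h2 := kls_closure hΩ.op hΩ.conv h1
  have e : 32 * (Λ * v) / (c * v) = 32 * Λ / c := by
    have := H.pos
    field_simp
  rwa [e] at h2

/-- the volume radius -/
theorem exists_vr {n : ℕ} (hn : 1 ≤ n) {Ω : Set (EuclideanSpace ℝ (Fin n))} (hΩ : Dom Ω) :
    ∃ v : ℝ, 0 < v ∧ volume Ω = volume (Metric.closedBall (0 : EuclideanSpace ℝ (Fin n)) v) := by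
  have hne' : Nonempty (Fin n) := ⟨⟨0, hn⟩⟩
  have hb0 : volume (Metric.ball (0 : EuclideanSpace ℝ (Fin n)) 1) ≠ 0 :=
    (Metric.measure_ball_pos volume _ one_pos).ne'
  have hbt : volume (Metric.ball (0 : EuclideanSpace ℝ (Fin n)) 1) ≠ ⊤ := measure_ball_lt_top.ne
  have hV0 : 0 < volume Ω := hΩ.vol_pos
  have hVt : volume Ω ≠ ⊤ := hΩ.bdd.measure_lt_top.ne
  set x : ℝ := (volume Ω).toReal / (volume (Metric.ball (0 : EuclideanSpace ℝ (Fin n)) 1)).toReal with hx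
  have hx0 : 0 < x := div_pos (ENNReal.toReal_pos hV0.ne' hVt) (ENNReal.toReal_pos hb0 hbt)
  refine ⟨x ^ ((1 : ℝ) / n), by positivity, ?_⟩
  rw [Measure.addHaar_closedBall _ _ (by positivity), finrank_euclideanSpace, Fintype.card_fin,
    ← Real.rpow_natCast, ← Real.rpow_mul hx0.le, one_div, inv_mul_cancel₀ (by positivity),
    Real.rpow_one, hx, ENNReal.ofReal_div_of_pos (ENNReal.toReal_pos hb0 hbt),
    ENNReal.ofReal_toReal hVt, ENNReal.ofReal_toReal hbt, ENNReal.div_mul_cancel hb0 hbt]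

end Pool.Agent.Q188.NC
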