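import Pool.Agent.Q188.NC.Rep
import Pool.Agent.Q188.NC.ES

/-!
# One block
-/

set_option autoImplicit false

namespace Pool.Agent.Q188.NC

open MeasureTheory Set Filter Topology
open scoped ENNReal InnerProductSpace

variable {n : ℕ} {B : Set (EuclideanSpace ℝ (Fin n))}

theorem ae_ne' (hn : 1 ≤ n) : ∀ᵐ y ∂(bh B), y ≠ 0 := by
  have hne : Nonempty (Fin n) := ⟨⟨0, hn⟩⟩
  have h0 : (volume : Measure (EuclideanSpace ℝ (Fin n))) {0} = 0 := measure_singleton 0
  rw [ae_iff]
  simp only [ne_eq, not_not, ofPred_eq_eq_singleton]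
  unfold bh
  rw [Measure.smul_apply, smul_eq_mul]
  have : (volume : Measure (EuclideanSpace ℝ (Fin n))).restrict B {0} = 0 :=
    le_antisymm ((Measure.restrict_apply_le _ _).trans h0.le) (zero_le)
  rw [this, mul_zero]

/-- radial moments, extended nonnegative form -/
theorem rad_lint (hn : 1 ≤ n) (h : Dom B) (H : EuclideanSpace ℝ (Fin n) → ℝ) (hHm : Measurable H)
    (hH : ∀ x, 0 ≤ H x) (hH2 : ∀ (c : ℝ) x, H (c • x) = c ^ 2 * H x) (ψ : ℝ → ℝ) (hψm : Measurable ψ)
    (hψ : ∀ r, 0 ≤ ψ r) :
    ∫⁻ x, ENNReal.ofReal (H x * ψ (gauge B x)) ∂(bh B) =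
      (∫⁻ r in Ioo (0 : ℝ) 1, ENNReal.ofReal (n * r ^ (n + 1) * ψ r)) *
        ∫⁻ y, ENNReal.ofReal (H y / gauge B y ^ 2) ∂(bh B) := by
  have hgm : Measurable (gauge B) := h.cont.measurable
  have key : ∫⁻ x in B, ENNReal.ofReal (H x * ψ (gauge B x)) =
      (∫⁻ r in Ioo (0 : ℝ) 1, ENNReal.ofReal (n * r ^ (n + 1) * ψ r)) *
        ∫⁻ y in B, ENNReal.ofReal (H y / gauge B y ^ 2) := by
    have hne : Nonempty (Fin n) := ⟨⟨0, hn⟩⟩
    rw [← lintegral_indicator h.op.measurableSet,
      polar hn h _ (Measurable.indicator (by fun_prop) h.op.measurableSet),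
      ← lintegral_indicator measurableSet_Ioo, ← lintegral_mul_const _
        (Measurable.indicator (by fun_prop) measurableSet_Ioo)]
    congr 1
    ext r
    by_cases hr0 : r ∈ Ioi (0 : ℝ)
    · have hr0' : (0 : ℝ) < r := hr0
      by_cases hr1 : r < 1
      · rw [indicator_of_mem (show r ∈ Ioo (0 : ℝ) 1 from ⟨hr0, hr1⟩)]
        have e1 : ∫⁻ y in B, B.indicator (fun x => ENNReal.ofReal (H x * ψ (gauge B x)))
            ((r / gauge B y) • y) = ENNReal.ofReal (r ^ 2 * ψ r) *
              ∫⁻ y in B, ENNReal.ofReal (H y / gauge B y ^ 2) := by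
          rw [← lintegral_const_mul _ (by fun_prop)]
          have hae : ∀ᵐ y ∂(volume.restrict B : Measure (EuclideanSpace ℝ (Fin n))), y ≠ 0 := by
            refine ae_restrict_of_ae ?_
            rw [ae_iff]
            simp
          refine lintegral_congr_ae (hae.mono fun y hy => ?_)
          have hN := h.gauge_pos hy
          have hg : gauge B ((r / gauge B y) • y) = r := by
            rw [h.gauge_smul, abs_of_pos (div_pos hr0' hN), div_mul_cancel₀ _ hN.ne']
          simp only
          rw [indicator_of_mem ((h.mem_iff _).2 (by rw [hg]; exact hr1)), hg, hH2,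
            ← ENNReal.ofReal_mul (mul_nonneg (sq_nonneg _) (hψ r))]
          congr 1
          field_simp
        rw [e1, ← mul_assoc]
        congr 1
        unfold wt
        rw [indicator_of_mem hr0, ← ENNReal.ofReal_mul (by positivity)]
        congr 1
        have : r ^ (n + 1) = r ^ (n - 1) * r ^ 2 := by
          rw [← pow_add]; congr 1; omega
        rw [this]
        ring
      · rw [indicator_of_notMem (show r ∉ Ioo (0 : ℝ) 1 from fun h' => hr1 h'.2), zero_mul]
        have e1 : ∫⁻ y in B, B.indicator (fun x => ENNReal.ofReal (H x * ψ (gauge B x)))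
            ((r / gauge B y) • y) = 0 := by
          have hae : ∀ᵐ y ∂(volume.restrict B : Measure (EuclideanSpace ℝ (Fin n))), y ≠ 0 := by
            refine ae_restrict_of_ae ?_
            rw [ae_iff]
            simp
          rw [lintegral_congr_ae (g := fun _ => 0) (hae.mono fun y hy => ?_), lintegral_zero]
          have hN := h.gauge_pos hy
          have hg : gauge B ((r / gauge B y) • y) = r := by
            rw [h.gauge_smul, abs_of_pos (div_pos hr0' hN), div_mul_cancel₀ _ hN.ne']
          exact indicator_of_notMem (fun h' => hr1 (by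
            have := (h.mem_iff _).1 h'
            rwa [hg] at this)) _
        rw [e1, mul_zero]
    · rw [indicator_of_notMem (show r ∉ Ioo (0 : ℝ) 1 from fun h' => hr0 h'.1), zero_mul]
      unfold wt
      rw [indicator_of_notMem hr0, zero_mul]
  unfold bh
  rw [lintegral_smul_measure, lintegral_smul_measure, key, smul_eq_mul, smul_eq_mul]
  ring

/-- radial moments -/
theorem rad_int (hn : 1 ≤ n) (h : Dom B) (H : EuclideanSpace ℝ (Fin n) → ℝ) (hHm : Measurable H)
    (hH : ∀ x, 0 ≤ H x) (hH2 : ∀ (c : ℝ) x, H (c • x) = c ^ 2 * H x) (ψ : ℝ → ℝ) (hψm : Measurable ψ)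
    (hψ : ∀ r, 0 ≤ ψ r) (J : ℝ) (hJ : 0 ≤ J)
    (hJ2 : ∫⁻ r in Ioo (0 : ℝ) 1, ENNReal.ofReal (n * r ^ (n + 1) * ψ r) = ENNReal.ofReal J) :
    ∫ x, H x * ψ (gauge B x) ∂(bh B) = J * ∫ y, H y / gauge B y ^ 2 ∂(bh B) := by
  have hgm : Measurable (gauge B) := h.cont.measurable
  rw [integral_eq_lintegral_of_nonneg_ae (Eventually.of_forall fun x => mul_nonneg (hH x) (hψ _))
    (by fun_prop), integral_eq_lintegral_of_nonneg_ae (Eventually.of_forall fun x =>
      div_nonneg (hH x) (sq_nonneg _)) (hHm.div (hgm.pow_const 2)).aestronglyMeasurable, rad_lint hn h H hHm hH hH2 ψ hψm hψ, hJ2,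
    ENNReal.toReal_mul, ENNReal.toReal_ofReal hJ]

theorem J_one (hn : 1 ≤ n) : ∫⁻ r in Ioo (0 : ℝ) 1, ENNReal.ofReal (n * r ^ (n + 1) * (fun _ => (1 : ℝ)) r) =
    ENNReal.ofReal (n / (n + 2)) := by
  rw [← ofReal_integral_eq_lintegral_ofReal]
  · congr 1
    rw [← integral_Ioc_eq_integral_Ioo, ← intervalIntegral.integral_of_le zero_le_one]
    simp only [mul_one]
    rw [intervalIntegral.integral_const_mul, integral_pow]
    simp
    field_simp
    ring
  · exact (Continuous.integrableOn_Icc (by fun_prop)).mono_set Ioo_subset_Icc_self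
  · refine (ae_restrict_mem measurableSet_Ioo).mono fun r hr => ?_
    have := hr.1
    simp only [mul_one, Pi.zero_apply]
    positivity

theorem J_two (hn : 1 ≤ n) : ∫⁻ r in Ioo (0 : ℝ) 1,
    ENNReal.ofReal (n * r ^ (n + 1) * (fun r : ℝ => (1 / r - 1) ^ 2) r) =
    ENNReal.ofReal (2 / ((n + 1) * (n + 2))) := by
  have e1 : ∀ r ∈ Ioo (0 : ℝ) 1, n * r ^ (n + 1) * (fun r : ℝ => (1 / r - 1) ^ 2) r =
      n * r ^ (n - 1) - 2 * n * r ^ n + n * r ^ (n + 1) := by
    intro r hr
    have hr0 : r ≠ 0 := hr.1.ne'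
    have h1 : r ^ (n + 1) = r ^ (n - 1) * r ^ 2 := by
      rw [← pow_add]; congr 1; omega
    have h2 : r ^ n = r ^ (n - 1) * r := by
      rw [← pow_succ]; congr 1; omega
    simp only
    rw [h1, h2]
    field_simp
    ring
  rw [setLIntegral_congr_fun measurableSet_Ioo (fun r hr => by rw [e1 r hr]),
    ← ofReal_integral_eq_lintegral_ofReal]
  · congr 1
    rw [← integral_Ioc_eq_integral_Ioo, ← intervalIntegral.integral_of_le zero_le_one]
    rw [intervalIntegral.integral_add, intervalIntegral.integral_sub,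
      intervalIntegral.integral_const_mul, intervalIntegral.integral_const_mul,
      intervalIntegral.integral_const_mul, integral_pow, integral_pow, integral_pow]
    · have hc : ((n - 1 : ℕ) : ℝ) + 1 = n := by
        rw [Nat.cast_sub hn]; simp
      have h0 : (n : ℝ) ≠ 0 := by positivity
      rw [hc]
      have : n - 1 + 1 ≠ 0 := by omega
      simp [this]
      field_simp
      ring
    all_goals exact Continuous.intervalIntegrable (by fun_prop) _ _
  · exact (Continuous.integrableOn_Icc (by fun_prop)).mono_set Ioo_subset_Icc_self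
  · refine (ae_restrict_mem measurableSet_Ioo).mono fun r hr => ?_
    simp only [Pi.zero_apply]
    rw [← e1 r hr]
    have := hr.1
    positivity

end Pool.Agent.Q188.NC
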