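import Pool.Agent.Q188.NC.Pol

/-!
# The Lebesgue measure in block polar coordinates
-/

set_option autoImplicit false

namespace Pool.Agent.Q188.NC

open MeasureTheory Set Filter Topology
open scoped ENNReal

/-- product of one dimensional integrals -/
theorem lint_prod : ∀ {n : ℕ} (g : Fin n → ℝ → ℝ≥0∞) (_ : ∀ i, Measurable (g i)),
    ∫⁻ R : Fin n → ℝ, ∏ i, g i (R i) = ∏ i, ∫⁻ r, g i r := by
  intro n
  induction n with
  | zero =>
    intro g hg
    simp only [Finset.univ_eq_empty, Finset.prod_empty]
    rw [lintegral_const, one_mul, volume_pi, Measure.pi_univ]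
    simp
  | succ n ih =>
    intro g hg
    have h1 := (volume_preserving_piFinSuccAbove (fun _ : Fin (n + 1) => ℝ) 0).symm
    rw [← h1.lintegral_comp (by fun_prop)]
    have h2 : ∀ z : ℝ × (Fin n → ℝ),
        ∏ i, g i ((MeasurableEquiv.piFinSuccAbove (fun _ : Fin (n + 1) => ℝ) 0).symm z i) =
          g 0 z.1 * ∏ i : Fin n, g i.succ (z.2 i) := by
      intro z
      rw [Fin.prod_univ_succ]
      rfl
    rw [lintegral_congr h2]
    rw [show (volume : Measure (ℝ × (Fin n → ℝ))) = (volume : Measure ℝ).prod volume from rfl]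
    have hpm : Measurable fun y : Fin n → ℝ => ∏ i : Fin n, g i.succ (y i) :=
      Finset.measurable_prod _ fun i _ => (hg _).comp (measurable_pi_apply i)
    have hm2 : Measurable fun a : ℝ × (Fin n → ℝ) => g 0 a.1 * ∏ i : Fin n, g i.succ (a.2 i) :=
      ((hg 0).comp measurable_fst).mul (hpm.comp measurable_snd)
    rw [lintegral_prod _ hm2.aemeasurable, Fin.prod_univ_succ, ← ih (fun i => g i.succ) (fun i => hg _), ← lintegral_mul_const _ (hg 0)]
    congr 1
    ext r
    exact lintegral_const_mul (g 0 r) hpm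

variable {b k : ℕ} {d : Fin b → ℕ}

/-- radii and the last coordinates -/
abbrev Aa (b k : ℕ) : Type := (Fin b → ℝ) × (Fin k → ℝ)

/-- blocks -/
abbrev Yy {b : ℕ} (d : Fin b → ℕ) : Type := ∀ i, EuclideanSpace ℝ (Fin (d i))

/-- index type -/
abbrev Kk {b : ℕ} (d : Fin b → ℕ) (k : ℕ) : Type := (Σ i, Fin (d i)) ⊕ Fin k

/-- polar coordinates in all blocks -/
noncomputable def Ph (B : ∀ i, Set (EuclideanSpace ℝ (Fin (d i)))) (z : Aa b k × Yy d) : Kk d k → ℝ :=
  Sum.elim (fun p => z.1.1 p.1 / gauge (B p.1) (z.2 p.1) * z.2 p.1 p.2) z.1.2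

/-- density of the radii -/
noncomputable def Wt (d : Fin b → ℕ) (k : ℕ) (a : Aa b k) : ℝ≥0∞ := ∏ i, wt (d i) (a.1 i)

theorem Wt_meas (d : Fin b → ℕ) (k : ℕ) : Measurable (Wt d k) := by
  unfold Wt
  exact Finset.measurable_prod _ fun i _ => (wt_meas (d i)).comp (by fun_prop)

theorem Ph_meas {B : ∀ i, Set (EuclideanSpace ℝ (Fin (d i)))} (h : ∀ i, Dom (B i)) :
    Measurable (Ph (k := k) B) := by
  refine measurable_pi_lambda _ fun p => ?_
  rcases p with ⟨i, j⟩ | j
  · have := (h i).cont.measurable
    show Measurable fun z : Aa b k × Yy d => z.1.1 i / gauge (B i) (z.2 i) * z.2 i j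
    fun_prop
  · show Measurable fun z : Aa b k × Yy d => z.1.2 j
    fun_prop

theorem vol_box {n : ℕ} (s : Fin n → Set ℝ) (hs : ∀ j, MeasurableSet (s j)) :
    (volume : Measure (EuclideanSpace ℝ (Fin n))) {x | ∀ j, x j ∈ s j} = ∏ j, volume (s j) := by
  have h1 := PiLp.volume_preserving_ofLp (Fin n)
  have h2 := h1.measure_preimage (s := Set.pi univ s) (MeasurableSet.univ_pi hs).nullMeasurableSet
  rw [volume_pi_pi] at h2
  rw [← h2]
  congr 1
  ext x
  simp

theorem box (hd : ∀ i, 1 ≤ d i) {B : ∀ i, Set (EuclideanSpace ℝ (Fin (d i)))} (h : ∀ i, Dom (B i)) :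
    (volume : Measure (Kk d k → ℝ)) = Measure.map (Ph (k := k) B)
      (((volume : Measure (Aa b k)).withDensity (Wt d k)).prod
        (Measure.pi fun i => (volume : Measure (EuclideanSpace ℝ (Fin (d i)))).restrict (B i))) := by
  have : ∀ i, IsFiniteMeasure ((volume : Measure (EuclideanSpace ℝ (Fin (d i)))).restrict (B i)) :=
    fun i => ⟨by rw [Measure.restrict_apply_univ]; exact (h i).bdd.measure_lt_top⟩
  refine Measure.pi_eq fun s hs => ?_
  have hSm : MeasurableSet (Set.pi univ s) := MeasurableSet.univ_pi hs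
  rw [Measure.map_apply (Ph_meas h) hSm, Measure.prod_apply (Ph_meas h hSm),
    lintegral_withDensity_eq_lintegral_mul _ (Wt_meas d k) (measurable_measure_prodMk_left (Ph_meas h hSm))]
  -- the sections
  set S : ∀ i, ℝ → Set (EuclideanSpace ℝ (Fin (d i))) := fun i r =>
    {y | ∀ j, r / gauge (B i) y * y j ∈ s (Sum.inl ⟨i, j⟩)} with hS
  set G : ∀ i, ℝ → ℝ≥0∞ := fun i r =>
    wt (d i) r * (volume.restrict (B i)) (S i r) with hG
  set T : Set (Fin k → ℝ) := Set.pi univ fun j => s (Sum.inr j) with hT
  have hTm : MeasurableSet T := MeasurableSet.univ_pi fun j => hs _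
  have hGm : ∀ i, Measurable (G i) := by
    intro i
    refine (wt_meas (d i)).mul ?_
    have hgm := (h i).cont.measurable
    have : MeasurableSet {z : ℝ × EuclideanSpace ℝ (Fin (d i)) |
        ∀ j, z.1 / gauge (B i) z.2 * z.2 j ∈ s (Sum.inl ⟨i, j⟩)} := by
      rw [ofPred_forall]
      refine MeasurableSet.iInter fun j => ?_
      have : Measurable fun z : ℝ × EuclideanSpace ℝ (Fin (d i)) =>
        z.1 / gauge (B i) z.2 * z.2 j := by fun_prop
      exact this (hs _)
    exact measurable_measure_prodMk_left this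
  have h1 : ∀ a : Aa b k, (Wt d k * fun a => (Measure.pi fun i =>
      (volume : Measure (EuclideanSpace ℝ (Fin (d i)))).restrict (B i))
        (Prod.mk a ⁻¹' (Ph B ⁻¹' Set.pi univ s))) a =
      (∏ i, G i (a.1 i)) * T.indicator 1 a.2 := by
    intro a
    rw [Pi.mul_apply]
    by_cases ht : a.2 ∈ T
    · have e1 : Prod.mk a ⁻¹' (Ph B ⁻¹' Set.pi univ s) = Set.pi univ fun i => S i (a.1 i) := by
        ext Y
        simp only [mem_preimage, mem_univ_pi]
        constructor
        · intro hY i j
          exact hY (Sum.inl ⟨i, j⟩)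
        · intro hY p
          rcases p with ⟨i, j⟩ | j
          · exact hY i j
          · rw [hT, mem_univ_pi] at ht
            exact ht j
      rw [e1, Measure.pi_pi, indicator_of_mem ht, Pi.one_apply, mul_one]
      unfold Wt
      rw [← Finset.prod_mul_distrib]
    · have e1 : Prod.mk a ⁻¹' (Ph (k := k) B ⁻¹' Set.pi univ s) = ∅ := by
        ext Y
        simp only [mem_preimage, mem_univ_pi, mem_empty_iff_false, iff_false]
        intro hY
        apply ht
        rw [hT, mem_univ_pi]
        intro j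
        exact hY (Sum.inr j)
      rw [e1, measure_empty, mul_zero, indicator_of_notMem ht, mul_zero]
  rw [lintegral_congr h1, show (volume : Measure (Aa b k)) =
    (volume : Measure (Fin b → ℝ)).prod volume from rfl, lintegral_prod _ (by
      refine Measurable.aemeasurable (Measurable.mul ?_ ?_)
      · exact Finset.measurable_prod _ fun i _ => (hGm i).comp (by fun_prop)
      · exact (measurable_one.indicator hTm).comp measurable_snd)]
  have h2 : ∀ R : Fin b → ℝ, ∫⁻ t : Fin k → ℝ, (∏ i, G i (R i)) * T.indicator 1 t =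
      (∏ i, G i (R i)) * ∏ j, volume (s (Sum.inr j)) := by
    intro R
    rw [lintegral_const_mul _ (measurable_one.indicator hTm), lintegral_indicator_one hTm, hT,
      volume_pi_pi]
  simp only [h2]
  have hpm : Measurable fun y : Fin b → ℝ => ∏ i : Fin b, G i (y i) :=
    Finset.measurable_prod _ fun i _ => (hGm i).comp (measurable_pi_apply i)
  rw [lintegral_mul_const _ hpm, lint_prod G hGm, Fintype.prod_sum_type, Fintype.prod_sigma]
  congr 1
  refine Finset.prod_congr rfl fun i _ => ?_
  rw [← vol_box (fun j => s (Sum.inl ⟨i, j⟩)) (fun j => hs _)]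
  have hm : MeasurableSet {x : EuclideanSpace ℝ (Fin (d i)) | ∀ j, x j ∈ s (Sum.inl ⟨i, j⟩)} := by
    rw [ofPred_forall]
    refine MeasurableSet.iInter fun j => ?_
    have : Measurable fun z : EuclideanSpace ℝ (Fin (d i)) => z j := by fun_prop
    exact this (hs _)
  rw [← lintegral_indicator_one hm, polar (hd i) (h i) _ (measurable_one.indicator hm)]
  congr 1
  ext r
  rw [hG]
  simp only
  congr 1
  have hSm : MeasurableSet (S i r) := by
    have hgm := (h i).cont.measurable
    rw [hS]
    simp only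
    rw [ofPred_forall]
    refine MeasurableSet.iInter fun j => ?_
    have : Measurable fun z : EuclideanSpace ℝ (Fin (d i)) => r / gauge (B i) z * z j := by
      fun_prop
    exact this (hs _)
  rw [← lintegral_indicator_one hSm]
  congr 1

end Pool.Agent.Q188.NC
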