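import Pool.Agent.Q188.NC.Blk
import Pool.Agent.Q188.NC.Al

/-!
# Covariances
-/

set_option autoImplicit false

namespace Pool.Agent.Q188.NC

open MeasureTheory Set Filter Topology
open scoped ENNReal InnerProductSpace
open Pool.Agent.W695.KH (EV VV)

/-- the KLS inequality in functional form -/
def KLS {κ : Type} [Fintype κ] (K : ℝ) (D : Set (EuclideanSpace ℝ κ)) : Prop :=
  ∀ s : ℝ, (∀ θ : EuclideanSpace ℝ κ, EV D (fun x => ⟪θ, x⟫_ℝ ^ 2) ≤ s * ‖θ‖ ^ 2) →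
    ∀ f : EuclideanSpace ℝ κ → ℝ, ContDiff ℝ 1 f → (∀ x, ‖fderiv ℝ f x‖ ≤ 1) → VV D f ≤ K * s

section block

variable {n : ℕ} {B : Set (EuclideanSpace ℝ (Fin n))}

theorem EV_bh (B : Set (EuclideanSpace ℝ (Fin n))) (f : EuclideanSpace ℝ (Fin n) → ℝ) :
    EV B f = ∫ x, f x ∂(bh B) := by
  unfold EV bh
  rw [integral_smul_measure, ENNReal.toReal_inv, smul_eq_mul, div_eq_inv_mul]

theorem ae_bh (h : Dom B) : ∀ᵐ x ∂(bh B), x ∈ B := by
  unfold bh
  exact Measure.ae_smul_measure (ae_restrict_mem h.op.measurableSet) _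

theorem bh_int (h : Dom B) {φ : EuclideanSpace ℝ (Fin n) → ℝ} (hm : AEStronglyMeasurable φ (bh B))
    (M : ℝ) (hM : ∀ x ∈ B, |φ x| ≤ M) : Integrable φ (bh B) := by
  have := h.bh_prob
  exact Integrable.of_bound hm M ((ae_bh h).mono fun x hx => hM x hx)

theorem Dom.norm_le (h : Dom B) : ∃ C : ℝ, 0 ≤ C ∧ ∀ y, ‖y‖ ≤ C * gauge B y := by
  obtain ⟨R, hR⟩ := h.bdd.exists_norm_le
  have hR0 : 0 ≤ R := (norm_nonneg _).trans (hR 0 h.zero_mem)
  refine ⟨2 * R, by positivity, fun y => ?_⟩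
  by_cases hy : y = 0
  · rw [hy]; simp
  have hN := h.gauge_pos hy
  have h1 : (1 / (2 * gauge B y)) • y ∈ B := by
    rw [h.mem_iff, h.gauge_smul, abs_of_pos (by positivity)]
    field_simp
    norm_num
  have h2 := hR _ h1
  rw [norm_smul, Real.norm_eq_abs, abs_of_pos (by positivity)] at h2
  calc ‖y‖ = 2 * gauge B y * (1 / (2 * gauge B y) * ‖y‖) := by field_simp
    _ ≤ 2 * gauge B y * R := by gcongr
    _ = 2 * R * gauge B y := by ring

theorem Dom.unit_le {C : ℝ} (hC : ∀ y, ‖y‖ ≤ C * gauge B y) (h : Dom B) (y : EuclideanSpace ℝ (Fin n)) :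
    ‖(gauge B y)⁻¹ • y‖ ≤ |C| := by
  by_cases hy : y = 0
  · rw [hy]; simp
  have hN := h.gauge_pos hy
  rw [norm_smul, Real.norm_eq_abs, abs_of_pos (by positivity)]
  calc (gauge B y)⁻¹ * ‖y‖ ≤ (gauge B y)⁻¹ * (C * gauge B y) := by gcongr; exact hC y
    _ = C := by field_simp
    _ ≤ |C| := le_abs_self C

/-- mean square of `‖y‖ / N(y)` -/
noncomputable def qq (B : Set (EuclideanSpace ℝ (Fin n))) : ℝ :=
  ∫ y, ‖y‖ ^ 2 / gauge B y ^ 2 ∂(bh B)

/-- mean square of `⟪u, y⟫ / N(y)` -/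
noncomputable def pp (B : Set (EuclideanSpace ℝ (Fin n))) (u : EuclideanSpace ℝ (Fin n)) : ℝ :=
  ∫ y, ⟪u, y⟫_ℝ ^ 2 / gauge B y ^ 2 ∂(bh B)

theorem pp_mom (hn : 1 ≤ n) (h : Dom B) (u : EuclideanSpace ℝ (Fin n)) :
    EV B (fun x => ⟪u, x⟫_ℝ ^ 2) = n / (n + 2) * pp B u := by
  rw [EV_bh]
  have := rad_int hn h (fun x => ⟪u, x⟫_ℝ ^ 2) (by fun_prop) (fun x => sq_nonneg _)
    (fun c x => by rw [real_inner_smul_right]; ring) (fun _ => 1) measurable_const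
    (fun _ => zero_le_one) (n / (n + 2)) (by positivity) (J_one hn)
  simp only [mul_one] at this
  exact this

theorem ww_mom (hn : 1 ≤ n) (h : Dom B) :
    ∫ y, ‖y‖ ^ 2 * (1 / gauge B y - 1) ^ 2 ∂(bh B) = 2 / ((n + 1) * (n + 2)) * qq B :=
  rad_int hn h (fun x => ‖x‖ ^ 2) (by fun_prop) (fun x => sq_nonneg _)
    (fun c x => by rw [norm_smul, mul_pow, Real.norm_eq_abs, sq_abs]) (fun r => (1 / r - 1) ^ 2)
    (by fun_prop) (fun _ => sq_nonneg _) _ (by positivity) (J_two hn)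

theorem pp_int (h : Dom B) (u : EuclideanSpace ℝ (Fin n)) :
    Integrable (fun y => ⟪u, y⟫_ℝ ^ 2 / gauge B y ^ 2) (bh B) := by
  obtain ⟨C, hC0, hC⟩ := h.norm_le
  have hgm : Measurable (gauge B) := h.cont.measurable
  refine bh_int h (Measurable.div (by fun_prop) (hgm.pow_const 2)).aestronglyMeasurable
    (‖u‖ ^ 2 * |C| ^ 2) fun y _ => ?_
  have h1 : ⟪u, y⟫_ℝ ^ 2 / gauge B y ^ 2 = ⟪u, (gauge B y)⁻¹ • y⟫_ℝ ^ 2 := by
    rw [real_inner_smul_right]; ring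
  rw [h1, abs_of_nonneg (sq_nonneg _), ← mul_pow, ← sq_abs]
  refine pow_le_pow_left₀ (abs_nonneg _) ?_ 2
  exact (abs_real_inner_le_norm _ _).trans
    (mul_le_mul_of_nonneg_left (h.unit_le hC y) (norm_nonneg _))

theorem qq_sum (h : Dom B) : qq B = ∑ j, pp B (EuclideanSpace.single j 1) := by
  unfold qq pp
  rw [← integral_finsetSum _ fun j _ => pp_int h _]
  congr 1
  ext y
  rw [EuclideanSpace.norm_sq_eq, Finset.sum_div]
  refine Finset.sum_congr rfl fun j _ => ?_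
  rw [EuclideanSpace.inner_single_left, Real.norm_eq_abs, sq_abs]
  simp

theorem qq_nn (B : Set (EuclideanSpace ℝ (Fin n))) : 0 ≤ qq B :=
  integral_nonneg fun y => by positivity

end block

end Pool.Agent.Q188.NC
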