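import Pool.Agent.Q188.NC.Inc

/-!
# Covariances of the composition
-/

set_option autoImplicit false

namespace Pool.Agent.Q188.NC

open MeasureTheory Set Filter Topology
open scoped ENNReal InnerProductSpace
open Pool.Agent.W695.KH (EV VV)

variable {b k : ℕ} {d : Fin b → ℕ}
variable {B : ∀ i, Set (EuclideanSpace ℝ (Fin (d i)))} {Ω : Set (Ee d k)}

theorem Wt_measurable : Measurable (Wt d k) := by
  unfold Wt
  exact Finset.measurable_prod _ fun i _ => (wt_meas (d i)).comp (by fun_prop)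

theorem al_pos (Ω : Set (Ee d k)) (e : Yy d) : ∀ᵐ a ∂(al Ω e), ∀ i, 0 < a.1 i := by
  unfold al
  refine Measure.ae_smul_measure ?_ _
  unfold al0
  refine ae_restrict_of_ae ?_
  rw [ae_withDensity_iff Wt_measurable]
  refine Eventually.of_forall fun a ha i => ?_
  by_contra hcon
  apply ha
  unfold Wt
  refine Finset.prod_eq_zero (Finset.mem_univ i) ?_
  unfold wt
  exact indicator_of_notMem (fun h => hcon h) _

theorem int_eval (H : ∀ i, Dom (B i)) (i : Fin b) {φ : EuclideanSpace ℝ (Fin (d i)) → ℝ}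
    (hφ : Measurable φ) :
    ∫ Y, φ (Y i) ∂(Measure.pi fun i => bh (B i)) = ∫ y, φ y ∂(bh (B i)) := by
  have : ∀ i, IsProbabilityMeasure (bh (B i)) := fun i => (H i).bh_prob
  have h1 := (measurePreserving_eval (fun i => bh (B i)) i).map_eq
  rw [← h1, integral_map (measurable_pi_apply i).aemeasurable hφ.aestronglyMeasurable]

theorem cov_u (H : NCm B Ω) {e : Yy d} (he : ∀ i, gauge (B i) (e i) = 1) (i : Fin b)
    (u : EuclideanSpace ℝ (Fin (d i))) :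
    EV Ω (fun x => ⟪incL d k i u, x⟫_ℝ ^ 2) = (∫ a, a.1 i ^ 2 ∂(al Ω e)) * pp (B i) u := by
  have hgm : Measurable (gauge (B i)) := (H.dB i).cont.measurable
  have := al_prob H he
  have : ∀ i, IsProbabilityMeasure (bh (B i)) := fun i => (H.dB i).bh_prob
  rw [rep H he _ (by fun_prop)]
  have h1 : ∀ z : Aa b k × Yy d, ⟪incL d k i u, PhE B z⟫_ℝ ^ 2 =
      (z.1.1 i ^ 2) * (⟪u, z.2 i⟫_ℝ ^ 2 / gauge (B i) (z.2 i) ^ 2) := by
    intro z
    rw [inner_inc, blk_PhE, real_inner_smul_right, mul_pow, div_pow]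
    ring
  simp only [h1]
  rw [integral_prod_mul (fun a : Aa b k => a.1 i ^ 2)
    (fun Y : Yy d => ⟪u, Y i⟫_ℝ ^ 2 / gauge (B i) (Y i) ^ 2)]
  congr 1
  exact int_eval H.dB i (φ := fun y => ⟪u, y⟫_ℝ ^ 2 / gauge (B i) y ^ 2)
    (Measurable.div (by fun_prop) (hgm.pow_const 2))

theorem cov_t (H : NCm B Ω) {e : Yy d} (he : ∀ i, gauge (B i) (e i) = 1) (j : Fin k) :
    EV Ω (fun x => ⟪EuclideanSpace.single (Sum.inr j) (1 : ℝ), x⟫_ℝ ^ 2) =
      ∫ a, a.2 j ^ 2 ∂(al Ω e) := by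
  have := al_prob H he
  have : ∀ i, IsProbabilityMeasure (bh (B i)) := fun i => (H.dB i).bh_prob
  rw [rep H he _ (by fun_prop)]
  have h1 : ∀ z : Aa b k × Yy d, ⟪EuclideanSpace.single (Sum.inr j) (1 : ℝ), PhE B z⟫_ℝ ^ 2 =
      (z.1.2 j ^ 2) * 1 := by
    intro z
    rw [EuclideanSpace.inner_single_left, mul_one]
    simp only [map_one, one_mul]
    rfl
  simp only [h1]
  rw [integral_prod_mul (fun a : Aa b k => a.2 j ^ 2) (fun _ : Yy d => (1 : ℝ))]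
  simp

theorem e_ne {e : Yy d} (he : ∀ i, gauge (B i) (e i) = 1) (i : Fin b) : e i ≠ 0 := by
  intro h0
  have := he i
  rw [h0, gauge_zero] at this
  exact zero_ne_one this

theorem al_bd (H : NCm B Ω) {e : Yy d} (he : ∀ i, gauge (B i) (e i) = 1) :
    ∃ ρ : ℝ, 0 ≤ ρ ∧ ∀ a ∈ D0 Ω e, ‖a‖ ≤ ρ := by
  obtain ⟨R, hR⟩ := (D0_bdd H.dΩ (e_ne he)).exists_norm_le
  exact ⟨|R|, abs_nonneg _, fun a ha => (hR a ha).trans (le_abs_self R)⟩

theorem al_int (H : NCm B Ω) {e : Yy d} (he : ∀ i, gauge (B i) (e i) = 1) {φ : Aa b k → ℝ}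
    (hφ : Continuous φ) : Integrable φ (al Ω e) := by
  have := al_prob H he
  obtain ⟨ρ, hρ0, hρ⟩ := al_bd H he
  obtain ⟨C, hC⟩ := (isCompact_closedBall (0 : Aa b k) ρ).exists_bound_of_continuousOn hφ.continuousOn
  exact Integrable.of_bound hφ.aestronglyMeasurable C ((ae_D0 H e).mono fun a ha =>
    hC a (mem_closedBall_zero_iff.2 (hρ a ha)))

theorem rho_pos (H : NCm B Ω) {e : Yy d} (he : ∀ i, gauge (B i) (e i) = 1) (i : Fin b) :
    0 < ∫ a, a.1 i ^ 2 ∂(al Ω e) := by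
  have := al_prob H he
  have hnn : 0 ≤ ∫ a, a.1 i ^ 2 ∂(al Ω e) := integral_nonneg fun a => sq_nonneg _
  refine lt_of_le_of_ne hnn fun h0 => ?_
  have hnn' : 0 ≤ fun a : Aa b k => a.1 i ^ 2 := fun a => sq_nonneg (a.1 i)
  have h1 := (integral_eq_zero_iff_of_nonneg hnn'
    (al_int H he (φ := fun a : Aa b k => a.1 i ^ 2)
      (((continuous_apply i).comp continuous_fst).pow 2))).1 h0.symm
  have h2 : ∀ᵐ _a ∂(al Ω e), False := by
    filter_upwards [h1, al_pos Ω e] with a ha hp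
    have := hp i
    have h3 : a.1 i ^ 2 = 0 := ha
    nlinarith
  rw [ae_iff] at h2
  simp at h2

/-- the covariance of a block -/
theorem cov_block (H : NCm B Ω) {e : Yy d} (he : ∀ i, gauge (B i) (e i) = 1) {s : ℝ}
    (hs : ∀ θ : Ee d k, EV Ω (fun x => ⟪θ, x⟫_ℝ ^ 2) ≤ s * ‖θ‖ ^ 2) (i : Fin b)
    (u : EuclideanSpace ℝ (Fin (d i))) :
    pp (B i) u ≤ s / (∫ a, a.1 i ^ 2 ∂(al Ω e)) * ‖u‖ ^ 2 := by
  have h1 := hs (incL d k i u)
  rw [cov_u H he, LinearIsometry.norm_map] at h1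
  have h2 := rho_pos H he i
  rw [div_mul_eq_mul_div, le_div_iff₀ h2]
  linarith

theorem cov_q (H : NCm B Ω) {e : Yy d} (he : ∀ i, gauge (B i) (e i) = 1) {s : ℝ}
    (hs : ∀ θ : Ee d k, EV Ω (fun x => ⟪θ, x⟫_ℝ ^ 2) ≤ s * ‖θ‖ ^ 2) (i : Fin b) :
    qq (B i) * (∫ a, a.1 i ^ 2 ∂(al Ω e)) ≤ d i * s := by
  have h2 := rho_pos H he i
  rw [qq_sum (H.dB i), ← le_div_iff₀ h2]
  calc ∑ j, pp (B i) (EuclideanSpace.single j 1)
      ≤ ∑ _j : Fin (d i), s / (∫ a, a.1 i ^ 2 ∂(al Ω e)) := by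
        refine Finset.sum_le_sum fun j _ => ?_
        have := cov_block H he hs i (EuclideanSpace.single j 1)
        simpa using this
    _ = _ := by
        rw [Finset.sum_const, Finset.card_univ, Fintype.card_fin, nsmul_eq_mul]
        ring

end Pool.Agent.Q188.NC
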