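import Pool.Agent.Q188.NC.Vb

/-!
# Inclusions of the blocks and the covariance bounds
-/

set_option autoImplicit false

namespace Pool.Agent.Q188.NC

open MeasureTheory Set Filter Topology
open scoped ENNReal InnerProductSpace
open Pool.Agent.W695.KH (EV VV)

variable {b k : ℕ} {d : Fin b → ℕ}
variable {B : ∀ i, Set (EuclideanSpace ℝ (Fin (d i)))} {Ω : Set (Ee d k)}

/-- inclusion of a block -/
noncomputable def inc0 (d : Fin b → ℕ) (k : ℕ) (i : Fin b) (y : EuclideanSpace ℝ (Fin (d i))) : Ee d k :=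
  WithLp.toLp 2 (Sum.elim (fun p => (Pi.single i y : Yy d) p.1 p.2) fun _ => 0)

theorem blk_inc0 (i l : Fin b) (y : EuclideanSpace ℝ (Fin (d i))) :
    blk (inc0 d k i y) l = (Pi.single i y : Yy d) l := rfl

theorem lst_inc0 (i : Fin b) (y : EuclideanSpace ℝ (Fin (d i))) : lst (inc0 d k i y) = 0 := rfl

theorem norm_inc0 (i : Fin b) (y : EuclideanSpace ℝ (Fin (d i))) : ‖inc0 d k i y‖ = ‖y‖ := by
  have h1 := norm_sq_eq (inc0 d k i y)
  rw [Finset.sum_eq_single i (fun l _ hl => by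
    rw [blk_inc0, Pi.single_eq_of_ne hl]; simp) (fun h => absurd (Finset.mem_univ i) h),
    blk_inc0, Pi.single_eq_same, lst_inc0] at h1
  simp only [Pi.zero_apply, ne_eq, OfNat.ofNat_ne_zero, not_false_eq_true, zero_pow,
    Finset.sum_const_zero, add_zero] at h1
  exact (pow_left_inj₀ (norm_nonneg _) (norm_nonneg _) two_ne_zero).1 h1

/-- inclusion of a block as a linear isometry -/
noncomputable def incL (d : Fin b → ℕ) (k : ℕ) (i : Fin b) : EuclideanSpace ℝ (Fin (d i)) →ₗᵢ[ℝ] Ee d k where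
  toFun := inc0 d k i
  map_add' y z := by
    ext p
    rcases p with p | j
    · show (Pi.single i (y + z) : Yy d) p.1 p.2 = _
      rw [Pi.single_add]
      rfl
    · show (0 : ℝ) = 0 + 0
      simp
  map_smul' c y := by
    ext p
    rcases p with p | j
    · show (Pi.single i (c • y) : Yy d) p.1 p.2 = _
      rw [Pi.single_smul]
      rfl
    · show (0 : ℝ) = c * 0
      simp
  norm_map' y := norm_inc0 i y

theorem incL_apply (i : Fin b) (y : EuclideanSpace ℝ (Fin (d i))) : incL d k i y = inc0 d k i y := rfl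

theorem inner_inc (i : Fin b) (u : EuclideanSpace ℝ (Fin (d i))) (x : Ee d k) :
    ⟪incL d k i u, x⟫_ℝ = ⟪u, blk x i⟫_ℝ := by
  rw [PiLp.inner_apply, Fintype.sum_sum_type, Fintype.sum_sigma, PiLp.inner_apply]
  have h1 : ∑ j : Fin k, ⟪(incL d k i u) (Sum.inr j), x (Sum.inr j)⟫_ℝ = 0 := by
    refine Finset.sum_eq_zero fun j _ => ?_
    show ⟪(0 : ℝ), _⟫_ℝ = 0
    exact inner_zero_left _
  rw [h1, add_zero, Finset.sum_eq_single i]
  · refine Finset.sum_congr rfl fun j _ => ?_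
    have : (incL d k i u) (Sum.inl ⟨i, j⟩) = u j := by
      show (Pi.single i u : Yy d) i j = u j
      rw [Pi.single_eq_same]
    rw [this]
    rfl
  · intro l _ hl
    refine Finset.sum_eq_zero fun j _ => ?_
    have : (incL d k i u) (Sum.inl ⟨l, j⟩) = 0 := by
      show (Pi.single i u : Yy d) l j = 0
      rw [Pi.single_eq_of_ne hl]
      rfl
    rw [this]
    exact inner_zero_left _
  · exact fun h => absurd (Finset.mem_univ i) h

theorem PhE_update (a : Aa b k) (x : Yy d) (i : Fin b) (t : EuclideanSpace ℝ (Fin (d i))) :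
    PhE B (a, Function.update x i t) =
      PhE B (a, Function.update x i 0) + a.1 i • incL d k i ((gauge (B i) t)⁻¹ • t) := by
  ext p
  rcases p with ⟨l, j⟩ | j
  · show a.1 l / gauge (B l) (Function.update x i t l) * Function.update x i t l j =
      a.1 l / gauge (B l) (Function.update x i 0 l) * Function.update x i 0 l j +
        a.1 i * (Pi.single i ((gauge (B i) t)⁻¹ • t) : Yy d) l j
    by_cases hl : l = i
    · subst hl
      simp only [Function.update_self, Pi.single_eq_same]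
      show _ = _ * (0 : ℝ) + a.1 l * ((gauge (B l) t)⁻¹ * t j)
      ring
    · simp only [Function.update_of_ne hl]
      rw [Pi.single_eq_of_ne hl]
      show _ = _ + a.1 i * (0 : ℝ)
      ring
  · show a.2 j = a.2 j + a.1 i * (0 : ℝ)
    ring

theorem PhE_dist (a c : Aa b k) (Y : Yy d) :
    ‖PhE B (a, Y) - PhE B (c, Y)‖ ^ 2 =
      ∑ i, (a.1 i - c.1 i) ^ 2 * (‖Y i‖ ^ 2 / gauge (B i) (Y i) ^ 2) + ∑ j, (a.2 j - c.2 j) ^ 2 := by
  rw [norm_sq_eq]
  congr 1
  refine Finset.sum_congr rfl fun i _ => ?_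
  have : blk (PhE B (a, Y) - PhE B (c, Y)) i = ((a.1 i - c.1 i) / gauge (B i) (Y i)) • Y i := by
    have e : blk (PhE B (a, Y) - PhE B (c, Y)) i = blk (PhE B (a, Y)) i - blk (PhE B (c, Y)) i := rfl
    rw [e, blk_PhE, blk_PhE, ← sub_smul, sub_div]
  rw [this, norm_smul, Real.norm_eq_abs, mul_pow, sq_abs, div_pow]
  ring

theorem PhE_bd (H : ∀ i, Dom (B i)) :
    ∃ C : ℝ, 0 ≤ C ∧ ∀ (a : Aa b k) (Y : Yy d), ‖PhE B (a, Y)‖ ≤ C * ‖a‖ := by
  have h1 : ∀ i, ∃ C : ℝ, 0 ≤ C ∧ ∀ y, ‖y‖ ≤ C * gauge (B i) y := fun i => (H i).norm_le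
  choose C hC0 hC using h1
  refine ⟨√(∑ i, C i ^ 2 + k), Real.sqrt_nonneg _, fun a Y => ?_⟩
  have hs : 0 ≤ ∑ i, C i ^ 2 + (k : ℝ) := add_nonneg (Finset.sum_nonneg fun i _ => sq_nonneg _)
    (Nat.cast_nonneg _)
  refine (pow_le_pow_iff_left₀ (norm_nonneg _) (by positivity) two_ne_zero).1 ?_
  rw [mul_pow, Real.sq_sqrt hs, norm_sq_eq, add_mul]
  refine add_le_add ?_ ?_
  · rw [Finset.sum_mul]
    refine Finset.sum_le_sum fun i _ => ?_
    rw [blk_PhE]
    have e : (a.1 i / gauge (B i) (Y i)) • Y i = a.1 i • ((gauge (B i) (Y i))⁻¹ • Y i) := by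
      rw [smul_smul, div_eq_mul_inv]
    show ‖(a.1 i / gauge (B i) (Y i)) • Y i‖ ^ 2 ≤ _
    rw [e, norm_smul, mul_pow, mul_comm]
    have h2 := (H i).unit_le (hC i) (Y i)
    rw [abs_of_nonneg (hC0 i)] at h2
    have h3 : ‖a.1 i‖ ≤ ‖a‖ := (norm_le_pi_norm a.1 i).trans (norm_fst_le a)
    gcongr
  · calc ∑ j, lst (PhE B (a, Y)) j ^ 2 ≤ ∑ _j : Fin k, ‖a‖ ^ 2 := by
          refine Finset.sum_le_sum fun j _ => ?_
          have h3 : ‖a.2 j‖ ≤ ‖a‖ := (norm_le_pi_norm a.2 j).trans (norm_snd_le a)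
          rw [lst_PhE, ← sq_abs]
          exact pow_le_pow_left₀ (abs_nonneg _) h3 2
      _ = k * ‖a‖ ^ 2 := by simp

end Pool.Agent.Q188.NC
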