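import Mathlib

/-!
# Polar coordinates of a gauge, in product form
-/

set_option autoImplicit false

namespace Pool.Agent.Q188.NC

open MeasureTheory Set Filter Topology
open scoped ENNReal

/-- open symmetric bounded convex set -/
structure Dom {E : Type*} [NormedAddCommGroup E] [NormedSpace ℝ E] (B : Set E) : Prop where
  op : IsOpen B
  conv : Convex ℝ B
  bdd : Bornology.IsBounded B
  ne : B.Nonempty
  symm : ∀ x ∈ B, -x ∈ B

section gauge

variable {E : Type*} [NormedAddCommGroup E] [NormedSpace ℝ E] {B : Set E}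

theorem Dom.zero_mem (h : Dom B) : (0 : E) ∈ B := by
  obtain ⟨x, hx⟩ := h.ne
  have := h.conv hx (h.symm x hx) (a := 1 / 2) (b := 1 / 2) (by norm_num) (by norm_num) (by norm_num)
  simpa using this

theorem Dom.nhds (h : Dom B) : B ∈ 𝓝 (0 : E) := h.op.mem_nhds h.zero_mem

theorem Dom.absorbent (h : Dom B) : Absorbent ℝ B := absorbent_nhds_zero h.nhds

theorem Dom.cont (h : Dom B) : Continuous (gauge B) := continuous_gauge h.conv h.nhds

theorem Dom.mem_iff (h : Dom B) (x : E) : x ∈ B ↔ gauge B x < 1 := by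
  have := setOfPred_gauge_lt_one_eq_self_of_isOpen h.conv h.zero_mem h.op
  constructor
  · intro hx; rw [← this] at hx; exact hx
  · intro hx; rw [← this]; exact hx

theorem Dom.gauge_smul (h : Dom B) (r : ℝ) (x : E) : gauge B (r • x) = |r| * gauge B x := by
  rcases le_total 0 r with hr | hr
  · rw [gauge_smul_of_nonneg hr, abs_of_nonneg hr, smul_eq_mul]
  · have : r • x = (-r) • (-x) := by simp
    rw [this, gauge_smul_of_nonneg (by linarith), gauge_neg (fun x hx => h.symm x hx),
      abs_of_nonpos hr, smul_eq_mul]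

theorem Dom.gauge_pos (h : Dom B) {x : E} (hx : x ≠ 0) : 0 < gauge B x :=
  (_root_.gauge_pos h.absorbent (NormedSpace.isVonNBounded_of_isBounded ℝ h.bdd)).2 hx

theorem Dom.gauge_zero_iff (h : Dom B) {x : E} : gauge B x = 0 ↔ x = 0 := by
  constructor
  · intro hx
    by_contra hne
    exact (h.gauge_pos hne).ne' hx
  · rintro rfl; exact gauge_zero

end gauge

/-- `∫_N^∞ n ρ^(-n-1) dρ = N^(-n)` -/
theorem tail_int {n : ℕ} (hn : 1 ≤ n) {N : ℝ} (hN : 0 < N) :
    ∫⁻ r in Ioi N, ENNReal.ofReal (n * r ^ (-(n : ℝ) - 1)) = ENNReal.ofReal (N ^ (-(n : ℝ))) := by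
  have hn' : (0 : ℝ) < n := by exact_mod_cast hn
  have hlt : -(n : ℝ) - 1 < -1 := by linarith
  have hint := integrableOn_Ioi_rpow_of_lt hlt hN
  rw [← ofReal_integral_eq_lintegral_ofReal (hint.const_mul _)]
  · rw [integral_const_mul, integral_Ioi_rpow_of_lt hlt hN]
    congr 1
    have : -(n : ℝ) - 1 + 1 = -n := by ring
    rw [this]
    field_simp
  · refine (ae_restrict_mem measurableSet_Ioi).mono fun r hr => ?_
    have : (0 : ℝ) < r := hN.trans hr
    show 0 ≤ n * r ^ (-(n : ℝ) - 1)
    positivity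

/-- weight `n r^(n-1)` on the positive half line -/
noncomputable def wt (n : ℕ) (r : ℝ) : ℝ≥0∞ :=
  (Ioi (0 : ℝ)).indicator (fun r => ENNReal.ofReal (n * r ^ (n - 1))) r

theorem wt_meas (n : ℕ) : Measurable (wt n) :=
  (by fun_prop : Measurable fun r : ℝ => ENNReal.ofReal (n * r ^ (n - 1))).indicator measurableSet_Ioi

theorem lint_smul {E : Type*} [NormedAddCommGroup E] [NormedSpace ℝ E] [MeasurableSpace E] [BorelSpace E]
    [FiniteDimensional ℝ E] (μ : Measure E) [μ.IsAddHaarMeasure] {c : ℝ} (hc : 0 < c)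
    (G : E → ℝ≥0∞) (hG : Measurable G) :
    ∫⁻ x, G (c • x) ∂μ = ENNReal.ofReal ((c ^ Module.finrank ℝ E)⁻¹) * ∫⁻ x, G x ∂μ := by
  have h1 := Measure.map_addHaar_smul μ hc.ne'
  have h2 : ∫⁻ x, G x ∂(Measure.map (c • · : E → E) μ) = ∫⁻ x, G (c • x) ∂μ :=
    lintegral_map hG (measurable_const_smul c)
  rw [← h2, h1, lintegral_smul_measure, abs_of_pos (by positivity), smul_eq_mul]

/-- **polar coordinates** -/
theorem polar {n : ℕ} (hn : 1 ≤ n) {B : Set (EuclideanSpace ℝ (Fin n))} (h : Dom B)
    (G : EuclideanSpace ℝ (Fin n) → ℝ≥0∞) (hG : Measurable G) :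
    ∫⁻ x, G x = ∫⁻ r : ℝ, wt n r * ∫⁻ y in B, G ((r / gauge B y) • y) := by
  have hgm : Measurable (gauge B) := h.cont.measurable
  have hwm := wt_meas n
  have hn' : (0 : ℝ) < n := by exact_mod_cast hn
  have hne : Nonempty (Fin n) := ⟨⟨0, hn⟩⟩
  have hfr : Module.finrank ℝ (EuclideanSpace ℝ (Fin n)) = n := by simp
  -- Tonelli
  have s1 : ∫⁻ r : ℝ, wt n r * ∫⁻ y in B, G ((r / gauge B y) • y) =
      ∫⁻ y in B, ∫⁻ r : ℝ, wt n r * G ((r / gauge B y) • y) := by
    rw [← lintegral_lintegral_swap]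
    · congr 1
      ext r
      rw [lintegral_const_mul _ (by fun_prop)]
    · refine Measurable.aemeasurable ?_
      fun_prop
  rw [s1]
  -- substitution in the radius
  have hae : ∀ᵐ y : EuclideanSpace ℝ (Fin n), y ≠ 0 := by
    have : volume ({0} : Set (EuclideanSpace ℝ (Fin n))) = 0 := measure_singleton 0
    rw [ae_iff]
    simp
  have s2 : ∀ y : EuclideanSpace ℝ (Fin n), y ≠ 0 →
      ∫⁻ r : ℝ, wt n r * G ((r / gauge B y) • y) =
        ∫⁻ s in Ioi (0 : ℝ), ENNReal.ofReal (n * s ^ (n - 1) * gauge B y ^ n) * G (s • y) := by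
    intro y hy
    have hN := h.gauge_pos hy
    set N := gauge B y with hNdef
    have h1 := lint_smul (volume : Measure ℝ) hN (fun r => wt n r * G ((r / N) • y)) (by fun_prop)
    simp only [smul_eq_mul, Module.finrank_self, pow_one] at h1
    have h2 : ∫⁻ r : ℝ, wt n r * G ((r / N) • y) =
        ENNReal.ofReal N * ∫⁻ s : ℝ, wt n (N * s) * G ((N * s / N) • y) := by
      rw [h1, ← mul_assoc, ← ENNReal.ofReal_mul hN.le, mul_inv_cancel₀ hN.ne', ENNReal.ofReal_one,
        one_mul]
    rw [h2, ← lintegral_const_mul _ (by fun_prop), ← lintegral_indicator measurableSet_Ioi]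
    congr 1
    ext s
    by_cases hs : s ∈ Ioi (0 : ℝ)
    · rw [indicator_of_mem hs]
      unfold wt
      rw [indicator_of_mem (show N * s ∈ Ioi (0 : ℝ) from mul_pos hN hs), ← mul_assoc,
        ← ENNReal.ofReal_mul hN.le, mul_div_cancel_left₀ _ hN.ne']
      congr 2
      have : N ^ n = N * N ^ (n - 1) := by
        rw [← pow_succ', Nat.sub_add_cancel hn]
      rw [this, mul_pow]
      ring
    · rw [indicator_of_notMem hs]
      unfold wt
      have h3 : N * s ∉ Ioi (0 : ℝ) := fun h' => hs ((pos_iff_pos_of_mul_pos h').1 hN)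
      rw [indicator_of_notMem h3, zero_mul, mul_zero]
  have s3 : ∫⁻ y in B, ∫⁻ r : ℝ, wt n r * G ((r / gauge B y) • y) =
      ∫⁻ y in B, ∫⁻ s in Ioi (0 : ℝ), ENNReal.ofReal (n * s ^ (n - 1) * gauge B y ^ n) * G (s • y) :=
    lintegral_congr_ae ((ae_restrict_of_ae hae).mono fun y hy => s2 y hy)
  rw [s3, lintegral_lintegral_swap (by
    refine Measurable.aemeasurable ?_
    fun_prop)]
  -- scaling of the space
  have s4 : ∀ s : ℝ, s ∈ Ioi (0 : ℝ) →
      ∫⁻ y in B, ENNReal.ofReal (n * s ^ (n - 1) * gauge B y ^ n) * G (s • y) =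
        ∫⁻ x, (Ioi (gauge B x)).indicator
          (fun s => ENNReal.ofReal (n * s ^ (-(n : ℝ) - 1)) ) s *
            (ENNReal.ofReal (gauge B x ^ n) * G x) := by
    intro s hs
    have hs0 : (0 : ℝ) < s := hs
    set H : EuclideanSpace ℝ (Fin n) → ℝ≥0∞ := fun x =>
      (Ioi (gauge B x)).indicator (fun s => ENNReal.ofReal (n * s ^ (n - 1) * (gauge B x / s) ^ n)) s *
        G x with hH
    have hHm : Measurable H := by
      refine Measurable.mul ?_ hG
      have : (fun x => (Ioi (gauge B x)).indicator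
          (fun s => ENNReal.ofReal (n * s ^ (n - 1) * (gauge B x / s) ^ n)) s) =
          {x | gauge B x < s}.indicator
            (fun x => ENNReal.ofReal (n * s ^ (n - 1) * (gauge B x / s) ^ n)) := by
        ext x
        by_cases hx : gauge B x < s
        · rw [indicator_of_mem (show s ∈ Ioi (gauge B x) from hx),
            indicator_of_mem (show x ∈ {x | gauge B x < s} from hx)]
        · rw [indicator_of_notMem (show s ∉ Ioi (gauge B x) from hx),
            indicator_of_notMem (show x ∉ {x | gauge B x < s} from hx)]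
      rw [this]
      exact Measurable.indicator (by fun_prop) (measurableSet_lt hgm measurable_const)
    have h1 := lint_smul (volume : Measure (EuclideanSpace ℝ (Fin n))) hs0 H hHm
    have h2 : ∫⁻ y in B, ENNReal.ofReal (n * s ^ (n - 1) * gauge B y ^ n) * G (s • y) =
        ∫⁻ y, H (s • y) := by
      rw [← lintegral_indicator h.op.measurableSet]
      congr 1
      ext y
      have hgs : gauge B (s • y) = s * gauge B y := by rw [h.gauge_smul, abs_of_pos hs0]
      by_cases hy : y ∈ B
      · have hy' : gauge B (s • y) < s := by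
          rw [hgs]; exact (mul_lt_iff_lt_one_right hs0).2 ((h.mem_iff y).1 hy)
        rw [indicator_of_mem hy, hH]
        simp only
        rw [indicator_of_mem (show s ∈ Ioi _ from hy'), hgs, mul_div_cancel_left₀ _ hs0.ne']
      · have hy' : ¬ gauge B (s • y) < s := by
          rw [hgs]
          intro h'
          exact hy ((h.mem_iff y).2 ((mul_lt_iff_lt_one_right hs0).1 h'))
        rw [indicator_of_notMem hy, hH]
        simp only
        rw [indicator_of_notMem (show s ∉ Ioi _ from hy'), zero_mul]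
    rw [h2, h1, hfr, ← lintegral_const_mul _ hHm]
    congr 1
    ext x
    rw [hH]
    simp only
    by_cases hx : gauge B x < s
    · rw [indicator_of_mem (show s ∈ Ioi (gauge B x) from hx),
        indicator_of_mem (show s ∈ Ioi (gauge B x) from hx), ← mul_assoc, ← mul_assoc,
        ← ENNReal.ofReal_mul (by positivity), ← ENNReal.ofReal_mul (by positivity)]
      congr 2
      have e1 : s ^ (-(n : ℝ) - 1) = (s ^ n)⁻¹ * s⁻¹ := by
        rw [Real.rpow_sub hs0, Real.rpow_neg hs0.le, Real.rpow_natCast, Real.rpow_one]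
        rfl
      have e2 : s ^ n = s * s ^ (n - 1) := by rw [← pow_succ', Nat.sub_add_cancel hn]
      rw [e1, div_pow, e2]
      have hs1 : s ^ (n - 1) ≠ 0 := (pow_pos hs0 _).ne'
      field_simp
    · rw [indicator_of_notMem (show s ∉ Ioi (gauge B x) from hx),
        indicator_of_notMem (show s ∉ Ioi (gauge B x) from hx), zero_mul, zero_mul, mul_zero]
  rw [setLIntegral_congr_fun measurableSet_Ioi (fun s hs => s4 s hs)]
  have hjm : Measurable (Function.uncurry fun (s : ℝ) (x : EuclideanSpace ℝ (Fin n)) =>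
      (Ioi (gauge B x)).indicator (fun s => ENNReal.ofReal (n * s ^ (-(n : ℝ) - 1)) ) s *
            (ENNReal.ofReal (gauge B x ^ n) * G x)) := by
    refine Measurable.mul ?_ ?_
    · have : (fun z : ℝ × EuclideanSpace ℝ (Fin n) =>
          (Ioi (gauge B z.2)).indicator (fun s => ENNReal.ofReal (n * s ^ (-(n : ℝ) - 1)) ) z.1) =
          {z | gauge B z.2 < z.1}.indicator
            (fun z => ENNReal.ofReal (n * z.1 ^ (-(n : ℝ) - 1))) := by
        ext z
        by_cases hx : gauge B z.2 < z.1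
        · rw [indicator_of_mem (show z.1 ∈ Ioi (gauge B z.2) from hx),
            indicator_of_mem (show z ∈ {z : ℝ × EuclideanSpace ℝ (Fin n) | gauge B z.2 < z.1} from hx)]
        · rw [indicator_of_notMem (show z.1 ∉ Ioi (gauge B z.2) from hx),
            indicator_of_notMem
              (show z ∉ {z : ℝ × EuclideanSpace ℝ (Fin n) | gauge B z.2 < z.1} from hx)]
      show Measurable (fun z : ℝ × EuclideanSpace ℝ (Fin n) =>
          (Ioi (gauge B z.2)).indicator (fun s => ENNReal.ofReal (n * s ^ (-(n : ℝ) - 1)) ) z.1)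
      rw [this]
      exact Measurable.indicator (by fun_prop)
        (measurableSet_lt (hgm.comp measurable_snd) measurable_fst)
    · show Measurable fun z : ℝ × EuclideanSpace ℝ (Fin n) =>
        ENNReal.ofReal (gauge B z.2 ^ n) * G z.2
      fun_prop
  rw [lintegral_lintegral_swap hjm.aemeasurable]
  refine (lintegral_congr_ae (hae.mono fun x hx => ?_)).symm
  have hN := h.gauge_pos hx
  rw [lintegral_mul_const _ (by
    refine Measurable.indicator ?_ measurableSet_Ioi
    fun_prop), ← lintegral_indicator measurableSet_Ioi]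
  have e3 : ∫⁻ s : ℝ, (Ioi (0 : ℝ)).indicator (fun s => (Ioi (gauge B x)).indicator
      (fun s => ENNReal.ofReal (n * s ^ (-(n : ℝ) - 1))) s) s =
      ∫⁻ s in Ioi (gauge B x), ENNReal.ofReal (n * s ^ (-(n : ℝ) - 1)) := by
    rw [← lintegral_indicator measurableSet_Ioi]
    congr 1
    ext s
    by_cases hs : gauge B x < s
    · rw [indicator_of_mem (show s ∈ Ioi (0 : ℝ) from hN.trans hs)]
    · rw [indicator_of_notMem (show s ∉ Ioi (gauge B x) from hs)]
      by_cases hs0 : s ∈ Ioi (0 : ℝ)
      · rw [indicator_of_mem hs0, indicator_of_notMem (show s ∉ Ioi (gauge B x) from hs)]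
      · rw [indicator_of_notMem hs0]
  rw [e3, tail_int hn hN, ← mul_assoc, ← ENNReal.ofReal_mul (by positivity)]
  have e4 : gauge B x ^ (-(n : ℝ)) * gauge B x ^ n = 1 := by
    rw [Real.rpow_neg hN.le, Real.rpow_natCast, inv_mul_cancel₀ (pow_pos hN n).ne']
  rw [e4, ENNReal.ofReal_one, one_mul]

end Pool.Agent.Q188.NC
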