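import Pool.Agent.Q188.NC.Box

/-!
# The uniform measure of a norm composition in block polar coordinates
-/

set_option autoImplicit false

namespace Pool.Agent.Q188.NC

open MeasureTheory Set Filter Topology
open scoped ENNReal

variable {b k : ℕ} {d : Fin b → ℕ}

/-- ambient Euclidean space -/
abbrev Ee {b : ℕ} (d : Fin b → ℕ) (k : ℕ) : Type := EuclideanSpace ℝ (Kk d k)

/-- block -/
noncomputable def blk (x : Ee d k) (i : Fin b) : EuclideanSpace ℝ (Fin (d i)) :=
  WithLp.toLp 2 fun j => x (Sum.inl ⟨i, j⟩)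

/-- last coordinates -/
def lst (x : Ee d k) : Fin k → ℝ := fun j => x (Sum.inr j)

/-- norm composition -/
structure NCm (B : ∀ i, Set (EuclideanSpace ℝ (Fin (d i)))) (Ω : Set (Ee d k)) : Prop where
  pos : ∀ i, 1 ≤ d i
  dB : ∀ i, Dom (B i)
  dΩ : Dom Ω
  dep : ∀ x y : Ee d k, (∀ i, gauge (B i) (blk x i) = gauge (B i) (blk y i)) → lst x = lst y →
    x ∈ Ω → y ∈ Ω

variable {B : ∀ i, Set (EuclideanSpace ℝ (Fin (d i)))} {Ω : Set (Ee d k)}

/-- coordinates in the ambient Euclidean space -/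
noncomputable def PhE (B : ∀ i, Set (EuclideanSpace ℝ (Fin (d i)))) (z : Aa b k × Yy d) : Ee d k :=
  WithLp.toLp 2 (Ph B z)

theorem blk_PhE (z : Aa b k × Yy d) (i : Fin b) :
    blk (PhE B z) i = (z.1.1 i / gauge (B i) (z.2 i)) • z.2 i := rfl

theorem lst_PhE (z : Aa b k × Yy d) : lst (PhE B z) = z.1.2 := rfl

/-- the linear parametrisation by given vectors -/
noncomputable def psi (e : Yy d) (a : Aa b k) : Ee d k :=
  WithLp.toLp 2 (Sum.elim (fun p => a.1 p.1 * e p.1 p.2) a.2)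

theorem psi_lin (e : Yy d) (a c : Aa b k) (r s : ℝ) :
    psi e (r • a + s • c) = r • psi e a + s • psi e c := by
  ext p
  rcases p with p | j
  · simp [psi]; ring
  · simp [psi]

theorem psi_cont (e : Yy d) : Continuous (psi (k := k) e) := by
  unfold psi
  refine (PiLp.continuous_toLp 2 _).comp (continuous_pi fun p => ?_)
  rcases p with p | j
  · simp only [Sum.elim_inl]; fun_prop
  · simp only [Sum.elim_inr]; fun_prop

theorem psi_blk (e : Yy d) (a : Aa b k) (i : Fin b) : blk (psi e a) i = a.1 i • e i := rfl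

theorem psi_lst (e : Yy d) (a : Aa b k) : lst (psi e a) = a.2 := rfl

theorem exists_ref (h : ∀ i, Dom (B i)) (hd : ∀ i, 1 ≤ d i) :
    ∃ e : Yy d, ∀ i, gauge (B i) (e i) = 1 := by
  have : ∀ i, ∃ v : EuclideanSpace ℝ (Fin (d i)), gauge (B i) v = 1 := by
    intro i
    set v : EuclideanSpace ℝ (Fin (d i)) := EuclideanSpace.single ⟨0, hd i⟩ 1 with hv
    have hv0 : v ≠ 0 := by
      intro h0
      have : v ⟨0, hd i⟩ = 0 := by rw [h0]; rfl
      rw [hv] at this
      simp at this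
    have hg := (h i).gauge_pos hv0
    exact ⟨(gauge (B i) v)⁻¹ • v, by
      rw [(h i).gauge_smul, abs_of_pos (inv_pos.2 hg), inv_mul_cancel₀ hg.ne']⟩
  choose e he using this
  exact ⟨e, he⟩

/-- the radii region -/
def D0 (Ω : Set (Ee d k)) (e : Yy d) : Set (Aa b k) := {a | psi e a ∈ Ω}

theorem D0_open (h : Dom Ω) (e : Yy d) : IsOpen (D0 Ω e) := h.op.preimage (psi_cont e)

theorem D0_conv (h : Dom Ω) (e : Yy d) : Convex ℝ (D0 Ω e) := by
  intro a ha c hc r s hr hs hrs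
  show psi e (r • a + s • c) ∈ Ω
  rw [psi_lin]
  exact h.conv ha hc hr hs hrs

theorem norm_blk_le (x : Ee d k) (i : Fin b) : ‖blk x i‖ ≤ ‖x‖ := by
  rw [EuclideanSpace.norm_eq, EuclideanSpace.norm_eq]
  apply Real.sqrt_le_sqrt
  rw [Fintype.sum_sum_type, Fintype.sum_sigma]
  have h1 : ∑ j, ‖blk x i j‖ ^ 2 ≤ ∑ i, ∑ j, ‖x (Sum.inl ⟨i, j⟩)‖ ^ 2 :=
    Finset.single_le_sum (f := fun i => ∑ j, ‖x (Sum.inl ⟨i, j⟩)‖ ^ 2)
      (fun i _ => Finset.sum_nonneg fun j _ => sq_nonneg _) (Finset.mem_univ i)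
  have h2 : 0 ≤ ∑ j, ‖x (Sum.inr j)‖ ^ 2 := Finset.sum_nonneg fun j _ => sq_nonneg _
  linarith

theorem norm_sq_eq (x : Ee d k) : ‖x‖ ^ 2 = ∑ i, ‖blk x i‖ ^ 2 + ∑ j, lst x j ^ 2 := by
  rw [EuclideanSpace.norm_sq_eq, Fintype.sum_sum_type, Fintype.sum_sigma]
  congr 1
  · refine Finset.sum_congr rfl fun i _ => ?_
    rw [EuclideanSpace.norm_sq_eq]
    rfl
  · refine Finset.sum_congr rfl fun j _ => ?_
    rw [Real.norm_eq_abs, sq_abs]
    rfl

theorem D0_bdd (h : Dom Ω) {e : Yy d} (he : ∀ i, e i ≠ 0) : Bornology.IsBounded (D0 Ω e) := by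
  obtain ⟨R, hR⟩ := h.bdd.exists_norm_le
  have hR0 : 0 ≤ R := (norm_nonneg _).trans (hR 0 h.zero_mem)
  set C : ℝ := R * (1 + ∑ i, ‖e i‖⁻¹) with hC
  have hs0 : ∀ i, ‖e i‖⁻¹ ≤ ∑ i, ‖e i‖⁻¹ := fun i =>
    Finset.single_le_sum (f := fun i => ‖e i‖⁻¹) (fun i _ => by positivity) (Finset.mem_univ i)
  have hsum : 0 ≤ ∑ i, ‖e i‖⁻¹ := Finset.sum_nonneg fun i _ => by positivity
  refine (Metric.isBounded_closedBall (x := (0 : Aa b k)) (r := C)).subset fun a ha => ?_
  rw [mem_closedBall_zero_iff]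
  have h1 := hR _ ha
  refine max_le ?_ ?_
  · refine (pi_norm_le_iff_of_nonneg (by positivity)).2 fun i => ?_
    have h2 := (norm_blk_le (psi e a) i).trans h1
    rw [psi_blk, norm_smul] at h2
    have h3 : 0 < ‖e i‖ := norm_pos_iff.2 (he i)
    calc ‖a.1 i‖ = ‖a.1 i‖ * ‖e i‖ * ‖e i‖⁻¹ := by field_simp
      _ ≤ R * ‖e i‖⁻¹ := by gcongr
      _ ≤ C := by
        rw [hC]
        have := hs0 i
        gcongr
        linarith
  · refine (pi_norm_le_iff_of_nonneg (by positivity)).2 fun j => ?_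
    have h2 : ‖(psi e a) (Sum.inr j)‖ ≤ ‖psi e a‖ := PiLp.norm_apply_le (psi e a) (Sum.inr j)
    calc ‖a.2 j‖ ≤ R := h2.trans h1
      _ = R * 1 := (mul_one R).symm
      _ ≤ C := by
        rw [hC]
        gcongr
        linarith

theorem NCm.mem_iff (h : NCm B Ω) {e : Yy d} (he : ∀ i, gauge (B i) (e i) = 1) (a : Aa b k) (Y : Yy d)
    (hY : ∀ i, Y i ≠ 0) : PhE B (a, Y) ∈ Ω ↔ a ∈ D0 Ω e := by
  have h1 : ∀ i, gauge (B i) (blk (PhE (k := k) B (a, Y)) i) = gauge (B i) (blk (psi e a) i) := by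
    intro i
    have hg := (h.dB i).gauge_pos (hY i)
    rw [blk_PhE, psi_blk, (h.dB i).gauge_smul, (h.dB i).gauge_smul, he, mul_one]
    show |a.1 i / gauge (B i) (Y i)| * gauge (B i) (Y i) = |a.1 i|
    rw [abs_div, abs_of_pos hg]
    field_simp
  have h2 : lst (PhE B (a, Y)) = lst (psi e a) := rfl
  exact ⟨fun hx => h.dep _ _ h1 h2 hx, fun hx => h.dep _ _ (fun i => (h1 i).symm) h2.symm hx⟩

/-- uniform probability measure of a block -/
noncomputable def bh {n : ℕ} (B : Set (EuclideanSpace ℝ (Fin n))) : Measure (EuclideanSpace ℝ (Fin n)) :=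
  (volume B)⁻¹ • volume.restrict B

theorem Dom.vol_pos {E : Type*} [NormedAddCommGroup E] [NormedSpace ℝ E] [MeasurableSpace E]
    {μ : Measure E} [μ.IsOpenPosMeasure] {B : Set E} (h : Dom B) : 0 < μ B :=
  h.op.measure_pos μ h.ne

theorem Dom.bh_prob {n : ℕ} {B : Set (EuclideanSpace ℝ (Fin n))} (h : Dom B) :
    IsProbabilityMeasure (bh B) := by
  refine ⟨?_⟩
  unfold bh
  rw [Measure.smul_apply, Measure.restrict_apply_univ, smul_eq_mul,
    ENNReal.inv_mul_cancel h.vol_pos.ne' h.bdd.measure_lt_top.ne]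

theorem pi_bh (h : ∀ i, Dom (B i)) :
    (Measure.pi fun i => (volume : Measure (EuclideanSpace ℝ (Fin (d i)))).restrict (B i)) =
      (∏ i, volume (B i)) • Measure.pi fun i => bh (B i) := by
  have : ∀ i, IsFiniteMeasure ((volume : Measure (EuclideanSpace ℝ (Fin (d i)))).restrict (B i)) :=
    fun i => ⟨by rw [Measure.restrict_apply_univ]; exact (h i).bdd.measure_lt_top⟩
  have : ∀ i, IsProbabilityMeasure (bh (B i)) := fun i => (h i).bh_prob
  refine Measure.pi_eq fun s hs => ?_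
  rw [Measure.smul_apply, Measure.pi_pi, smul_eq_mul, ← Finset.prod_mul_distrib]
  refine Finset.prod_congr rfl fun i _ => ?_
  unfold bh
  rw [Measure.smul_apply, smul_eq_mul, ← mul_assoc,
    ENNReal.mul_inv_cancel (h i).vol_pos.ne' (h i).bdd.measure_lt_top.ne, one_mul]

/-- law of the radii and the last coordinates, not normalised -/
noncomputable def al0 (Ω : Set (Ee d k)) (e : Yy d) : Measure (Aa b k) :=
  ((volume : Measure (Aa b k)).withDensity (Wt d k)).restrict (D0 Ω e)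

theorem PhE_meas (h : ∀ i, Dom (B i)) : Measurable (PhE (k := k) B) :=
  (WithLp.measurable_toLp 2 _).comp (Ph_meas h)

theorem vol_eq (hd : ∀ i, 1 ≤ d i) (h : ∀ i, Dom (B i)) :
    (volume : Measure (Ee d k)) = (∏ i, volume (B i)) • Measure.map (PhE (k := k) B)
      (((volume : Measure (Aa b k)).withDensity (Wt d k)).prod (Measure.pi fun i => bh (B i))) := by
  have : ∀ i, IsProbabilityMeasure (bh (B i)) := fun i => (h i).bh_prob
  rw [← Measure.map_smul, ← Measure.prod_smul_right, ← pi_bh h]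
  have h1 := (PiLp.volume_preserving_toLp (Kk d k)).map_eq
  rw [← h1, box hd h, Measure.map_map (WithLp.measurable_toLp 2 _) (Ph_meas h)]
  rfl

theorem ae_ne (hd : ∀ i, 1 ≤ d i) (i : Fin b) : ∀ᵐ y ∂(bh (B i)), y ≠ 0 := by
  have hne : Nonempty (Fin (d i)) := ⟨⟨0, hd i⟩⟩
  have h0 : (volume : Measure (EuclideanSpace ℝ (Fin (d i)))) {0} = 0 := measure_singleton 0
  rw [ae_iff]
  simp only [ne_eq, not_not, ofPred_eq_eq_singleton]
  unfold bh
  rw [Measure.smul_apply, smul_eq_mul]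
  have : (volume : Measure (EuclideanSpace ℝ (Fin (d i)))).restrict (B i) {0} = 0 :=
    le_antisymm ((Measure.restrict_apply_le _ _).trans h0.le) (zero_le)
  rw [this, mul_zero]

theorem ae_all_ne (hd : ∀ i, 1 ≤ d i) (h : ∀ i, Dom (B i)) :
    ∀ᵐ Y ∂(Measure.pi fun i => bh (B i)), ∀ i, Y i ≠ 0 := by
  have : ∀ i, IsProbabilityMeasure (bh (B i)) := fun i => (h i).bh_prob
  rw [ae_all_iff]
  intro i
  exact (measurePreserving_eval (fun i => bh (B i)) i).quasiMeasurePreserving.ae (ae_ne hd i)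

theorem restrict_eq (H : NCm B Ω) {e : Yy d} (he : ∀ i, gauge (B i) (e i) = 1) :
    (volume : Measure (Ee d k)).restrict Ω = (∏ i, volume (B i)) • Measure.map (PhE (k := k) B)
      ((al0 Ω e).prod (Measure.pi fun i => bh (B i))) := by
  have : ∀ i, IsProbabilityMeasure (bh (B i)) := fun i => (H.dB i).bh_prob
  have hm := PhE_meas (k := k) H.dB
  rw [vol_eq H.pos H.dB, Measure.restrict_smul, Measure.restrict_map hm H.dΩ.op.measurableSet]
  congr 2
  unfold al0
  have h1 : (((volume : Measure (Aa b k)).withDensity (Wt d k)).restrict (D0 Ω e)).prod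
      (Measure.pi fun i => bh (B i)) = (((volume : Measure (Aa b k)).withDensity (Wt d k)).prod
        (Measure.pi fun i => bh (B i))).restrict (D0 Ω e ×ˢ univ) := by
    rw [← Measure.prod_restrict, Measure.restrict_univ]
  rw [h1]
  apply Measure.restrict_congr_set
  have h2 : ∀ᵐ z ∂(((volume : Measure (Aa b k)).withDensity (Wt d k)).prod
      (Measure.pi fun i => bh (B i))), ∀ i, z.2 i ≠ 0 :=
    (Measure.quasiMeasurePreserving_snd).ae (ae_all_ne H.pos H.dB)
  filter_upwards [h2] with z hz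
  apply propext
  show PhE B z ∈ Ω ↔ z ∈ D0 Ω e ×ˢ univ
  rw [show z = (z.1, z.2) from rfl, H.mem_iff he z.1 z.2 hz]
  simp

end Pool.Agent.Q188.NC
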