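import Pool.Agent.Q188.NC.Cov

/-!
# Variance in one block
-/

set_option autoImplicit false

namespace Pool.Agent.Q188.NC

open MeasureTheory Set Filter Topology
open scoped ENNReal InnerProductSpace
open Pool.Agent.W695.KH (EV VV)

/-- variance identity -/
theorem var_eq {A : Type*} [MeasurableSpace A] {μ : Measure A} [IsProbabilityMeasure μ] {g : A → ℝ}
    (h1 : Integrable g μ) (h2 : Integrable (fun x => g x ^ 2) μ) (c : ℝ) :
    ∫ x, (g x - c) ^ 2 ∂μ = (∫ x, g x ^ 2 ∂μ - (∫ x, g x ∂μ) ^ 2) + ((∫ x, g x ∂μ) - c) ^ 2 := by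
  have e : ∀ x, (g x - c) ^ 2 = (g x ^ 2 - 2 * c * g x) + c ^ 2 := fun x => by ring
  simp only [e]
  have i1 : Integrable (fun x => 2 * c * g x) μ := h1.const_mul _
  have i2 : Integrable (fun x => g x ^ 2 - 2 * c * g x) μ := h2.sub i1
  rw [integral_add i2 (integrable_const _), integral_sub h2 i1, integral_const_mul]
  simp only [integral_const, probReal_univ, smul_eq_mul, one_mul]
  ring

theorem var_le {A : Type*} [MeasurableSpace A] {μ : Measure A} [IsProbabilityMeasure μ] {g : A → ℝ}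
    (h1 : Integrable g μ) (h2 : Integrable (fun x => g x ^ 2) μ) (c : ℝ) :
    ∫ x, (g x - ∫ y, g y ∂μ) ^ 2 ∂μ ≤ ∫ x, (g x - c) ^ 2 ∂μ := by
  rw [var_eq h1 h2 c, var_eq h1 h2]
  nlinarith [sq_nonneg ((∫ x, g x ∂μ) - c)]

theorem lip_of {κ : Type} [Fintype κ] {F : EuclideanSpace ℝ κ → ℝ} (hF : ContDiff ℝ 1 F) {L : ℝ}
    (hL : ∀ x, ‖fderiv ℝ F x‖ ≤ L) (x y : EuclideanSpace ℝ κ) : |F x - F y| ≤ L * ‖x - y‖ := by
  have := Convex.norm_image_sub_le_of_norm_fderiv_le (𝕜 := ℝ) (f := F) (C := L) (s := Set.univ)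
    (x := y) (y := x) (fun z _ => (hF.differentiable (by norm_num)).differentiableAt)
    (fun z _ => hL z) convex_univ (mem_univ _) (mem_univ _)
  exact this

theorem KLS.scale {κ : Type} [Fintype κ] {K : ℝ} {D : Set (EuclideanSpace ℝ κ)} (hK : KLS K D) {s : ℝ}
    (hs : ∀ θ : EuclideanSpace ℝ κ, EV D (fun x => ⟪θ, x⟫_ℝ ^ 2) ≤ s * ‖θ‖ ^ 2)
    {F : EuclideanSpace ℝ κ → ℝ} (hF : ContDiff ℝ 1 F) {R : ℝ} (hR : 0 < R)
    (hF' : ∀ x, ‖fderiv ℝ F x‖ ≤ R) : VV D F ≤ R ^ 2 * (K * s) := by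
  have h1 := hK s hs (fun x => R⁻¹ * F x) (contDiff_const.mul hF) (fun x => by
    have hd : DifferentiableAt ℝ F x := (hF.differentiable (by norm_num)).differentiableAt
    rw [fderiv_const_mul hd, norm_smul, Real.norm_eq_abs, abs_of_pos (inv_pos.2 hR)]
    calc R⁻¹ * ‖fderiv ℝ F x‖ ≤ R⁻¹ * R := by gcongr; exact hF' x
      _ = 1 := inv_mul_cancel₀ hR.ne')
  have h2 : VV D (fun x => R⁻¹ * F x) = (R⁻¹) ^ 2 * VV D F := by
    unfold VV EV
    have e : ∀ x, (R⁻¹ * F x) ^ 2 = (R⁻¹) ^ 2 * F x ^ 2 := fun x => by ring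
    simp only [e]
    rw [integral_const_mul, integral_const_mul]
    ring
  rw [h2] at h1
  calc VV D F = R ^ 2 * ((R⁻¹) ^ 2 * VV D F) := by field_simp
    _ ≤ R ^ 2 * (K * s) := by gcongr

variable {n : ℕ} {B : Set (EuclideanSpace ℝ (Fin n))}

theorem blk_var (hn : 1 ≤ n) (h : Dom B) {K : ℝ} (hK : KLS K B) {si : ℝ}
    (hs : ∀ u : EuclideanSpace ℝ (Fin n), EV B (fun x => ⟪u, x⟫_ℝ ^ 2) ≤ si * ‖u‖ ^ 2)
    {F : EuclideanSpace ℝ (Fin n) → ℝ} (hF : ContDiff ℝ 1 F) {R : ℝ} (hR : 0 < R)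
    (hF' : ∀ x, ‖fderiv ℝ F x‖ ≤ R) :
    ∫ y, (F ((gauge B y)⁻¹ • y) - ∫ y', F ((gauge B y')⁻¹ • y') ∂(bh B)) ^ 2 ∂(bh B) ≤
      R ^ 2 * (2 * (K * si) + 2 * (2 / ((n + 1) * (n + 2)) * qq B)) := by
  have hp := h.bh_prob
  obtain ⟨C, hC0, hC⟩ := h.norm_le
  obtain ⟨ρ, hρ⟩ := h.bdd.exists_norm_le
  have hgm : Measurable (gauge B) := h.cont.measurable
  have hmu : Measurable fun y : EuclideanSpace ℝ (Fin n) => (gauge B y)⁻¹ • y :=
    hgm.inv.smul measurable_id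
  have hFb : ∀ x, |F x| ≤ |F 0| + R * ‖x‖ := by
    intro x
    have h1 := lip_of hF hF' x 0
    rw [sub_zero] at h1
    have h2 : |F x| ≤ |F x - F 0| + |F 0| := by
      have := abs_add_le (F x - F 0) (F 0)
      rwa [sub_add_cancel] at this
    linarith
  set g : EuclideanSpace ℝ (Fin n) → ℝ := fun y => F ((gauge B y)⁻¹ • y) with hg
  have hgM : ∀ y, |g y| ≤ |F 0| + R * |C| := fun y =>
    (hFb _).trans (by have := h.unit_le hC y; gcongr)
  have hgmeas : Measurable g := hF.continuous.measurable.comp hmu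
  have ig : Integrable g (bh B) := int_bdd hgmeas hgM
  have ig2 : Integrable (fun y => g y ^ 2) (bh B) := int_bdd (hgmeas.pow_const 2)
    (M := (|F 0| + R * |C|) ^ 2) fun y => by
      rw [abs_of_nonneg (sq_nonneg _), ← sq_abs]
      exact pow_le_pow_left₀ (abs_nonneg _) (hgM y) 2
  have hFB : ∀ x ∈ B, |F x| ≤ |F 0| + R * |ρ| := fun x hx =>
    (hFb x).trans (by have := (hρ x hx).trans (le_abs_self ρ); gcongr)
  have hFm : Measurable F := hF.continuous.measurable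
  have iF : Integrable F (bh B) := bh_int h hFm.aestronglyMeasurable _ hFB
  have iF2 : Integrable (fun y => F y ^ 2) (bh B) :=
    bh_int h (hFm.pow_const 2).aestronglyMeasurable ((|F 0| + R * |ρ|) ^ 2) fun y hy => by
      rw [abs_of_nonneg (sq_nonneg _), ← sq_abs]
      exact pow_le_pow_left₀ (abs_nonneg _) (hFB y hy) 2
  set c := ∫ y, F y ∂(bh B) with hc
  refine (var_le ig ig2 c).trans ?_
  have hv : ∫ y, (F y - c) ^ 2 ∂(bh B) ≤ R ^ 2 * (K * si) := by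
    rw [var_eq iF iF2 c]
    have := hK.scale hs hF hR hF'
    unfold VV at this
    rw [EV_bh, EV_bh, ← hc] at this
    rw [sub_self]
    linarith
  have iFc : Integrable (fun y => (F y - c) ^ 2) (bh B) := by
    have e : (fun x => (F x - c) ^ 2) = fun x => (F x ^ 2 - 2 * c * F x) + c ^ 2 := by
      ext x; ring
    rw [e]
    exact (iF2.sub (iF.const_mul _)).add (integrable_const _)
  have hpt : ∀ y, (g y - c) ^ 2 ≤ 2 * (F y - c) ^ 2 + 2 * R ^ 2 * (‖y‖ ^ 2 * (1 / gauge B y - 1) ^ 2) := by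
    intro y
    have h1 := lip_of hF hF' ((gauge B y)⁻¹ • y) y
    have h2 : (gauge B y)⁻¹ • y - y = (1 / gauge B y - 1) • y := by
      rw [sub_smul, one_smul, one_div]
    rw [h2, norm_smul, Real.norm_eq_abs] at h1
    have h3 : (g y - F y) ^ 2 ≤ R ^ 2 * (‖y‖ ^ 2 * (1 / gauge B y - 1) ^ 2) := by
      rw [← sq_abs (g y - F y)]
      calc |g y - F y| ^ 2 ≤ (R * (|1 / gauge B y - 1| * ‖y‖)) ^ 2 :=
            pow_le_pow_left₀ (abs_nonneg _) h1 2
        _ = _ := by rw [mul_pow, mul_pow, sq_abs]; ring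
    nlinarith [sq_nonneg ((g y - F y) - (F y - c))]
  have iw : Integrable (fun y => ‖y‖ ^ 2 * (1 / gauge B y - 1) ^ 2) (bh B) := by
    refine bh_int h (Measurable.aestronglyMeasurable (by fun_prop)) ((|C| + |ρ|) ^ 2) fun y hy => ?_
    have h2 : ‖y‖ ^ 2 * (1 / gauge B y - 1) ^ 2 = ‖(gauge B y)⁻¹ • y - y‖ ^ 2 := by
      have h2 : (gauge B y)⁻¹ • y - y = (1 / gauge B y - 1) • y := by
        rw [sub_smul, one_smul, one_div]
      rw [h2, norm_smul, Real.norm_eq_abs, mul_pow, sq_abs]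
      ring
    rw [h2, abs_of_nonneg (sq_nonneg _)]
    refine pow_le_pow_left₀ (norm_nonneg _) ((norm_sub_le _ _).trans (add_le_add (h.unit_le hC y)
      ((hρ y hy).trans (le_abs_self ρ)))) 2
  have i1 : Integrable (fun y => 2 * (F y - c) ^ 2) (bh B) := iFc.const_mul _
  have i2 : Integrable (fun y => 2 * R ^ 2 * (‖y‖ ^ 2 * (1 / gauge B y - 1) ^ 2)) (bh B) :=
    iw.const_mul _
  calc ∫ y, (g y - c) ^ 2 ∂(bh B)
      ≤ ∫ y, (2 * (F y - c) ^ 2 + 2 * R ^ 2 * (‖y‖ ^ 2 * (1 / gauge B y - 1) ^ 2)) ∂(bh B) :=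
        integral_mono_of_nonneg (Eventually.of_forall fun y => sq_nonneg _) (i1.add i2)
          (Eventually.of_forall hpt)
    _ = 2 * (∫ y, (F y - c) ^ 2 ∂(bh B)) +
          2 * R ^ 2 * ∫ y, ‖y‖ ^ 2 * (1 / gauge B y - 1) ^ 2 ∂(bh B) := by
        rw [integral_add i1 i2, integral_const_mul, integral_const_mul]
    _ ≤ _ := by
        rw [ww_mom hn h]
        linarith

end Pool.Agent.Q188.NC
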